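import Pool.Agent.Y850.ZN.Indep
set_option autoImplicit false

/-! Dorofeev's lemma: in every alternative algebra `2 D [N, A]` lies in an ideal contained in the nucleus
(`D` is the associator ideal, `N` the nucleus). -/

namespace Pool.Agent.Run7.h351.Dor
open Pool.Agent.Helper805.Nuc Pool.Agent.Helper805.Nuc.Tens Pool.Agent.Helper805.Nuc.NFun
  Pool.Agent.Helper805.Nuc.Alt Pool.Agent.Helper805.Nuc.Free Pool.Agent.Helper805.Mod
  Pool.Agent.Y850.ZN

section ring
variable {Q : Type} [NonUnitalNonAssocRing Q] (hQ : IsAlt Q)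
include hQ

/-- a commutator with a nuclear element is a derivation -/
lemma ad_mul {n : Q} (hn : IsNuc n) (p q : Q) : br n (p * q) = br n p * q + p * br n q := by
  have h1 := hn p q
  have h2 := hn.two hQ p q
  have h3 := hn.three hQ p q
  unfold as at h1 h2 h3
  unfold br
  simp only [mul_sub, sub_mul]
  linear_combination (norm := abel) -h1 + h2 - h3

omit hQ in
lemma nmul {n : Q} (hn : IsNuc n) (p q : Q) : n * (p * q) = (n * p) * q := by
  have h1 := hn p q
  unfold as at h1
  exact (sub_eq_zero.mp h1).symm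

lemma mnul {n : Q} (hn : IsNuc n) (p q : Q) : (p * n) * q = p * (n * q) := by
  have h1 := hn.two hQ p q
  unfold as at h1
  exact sub_eq_zero.mp h1

/-- nuclear elements commute with associators -/
lemma ncomm {n : Q} (hn : IsNuc n) (x y z : Q) : n * as x y z = as x y z * n := by
  have h := cocycle x y z n
  rw [hn.three hQ, hn.three hQ, hn.three hQ, mul_zero] at h
  have h2 : as x y (z * n) = as x y z * n := by
    linear_combination (norm := abel) -h
  rw [← h2, pc2 hQ x y (z * n), hn.mul_right hQ, ← pc2 hQ x y z]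

lemma br_as {n : Q} (hn : IsNuc n) (x y z : Q) : br n (as x y z) = 0 := by
  unfold br; rw [ncomm hQ hn, sub_self]

lemma br_ap {n : Q} (hn : IsNuc n) (x y z w : Q) : br n (as x y z * w) = br n w * as x y z := by
  rw [ad_mul hQ hn, br_as hQ hn, zero_mul, zero_add, ncomm hQ (hn.comm hQ w)]

lemma br_pa {n : Q} (hn : IsNuc n) (x y z w : Q) : br n (w * as x y z) = br n w * as x y z := by
  rw [ad_mul hQ hn, br_as hQ hn, mul_zero, add_zero]

/-- skew-symmetry -/
lemma skew {n : Q} (hn : IsNuc n) (a x y z : Q) : br n a * as x y z = -(br n x * as a y z) := by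
  have h := hn.comm hQ (x * a) y z
  rw [ad_mul hQ hn, as_add1, (hn.comm hQ x).mul_left hQ, (hn.comm hQ a).mul_right hQ] at h
  linear_combination (norm := abel) h

/-- `[n, a] (p, u, v) = 0` for an associator `p` -/
lemma zero1 {n : Q} (hn : IsNuc n) (a x y z u v : Q) : br n a * as (as x y z) u v = 0 := by
  rw [skew hQ hn, br_as hQ hn, zero_mul, neg_zero]

lemma zero3 {n : Q} (hn : IsNuc n) (a x y z u v : Q) : br n a * as u v (as x y z) = 0 := by
  rw [pc2 hQ, zero1 hQ hn]

/-- the basic function of seven arguments -/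
def K (n a x y z u v w : Q) : Q := (br n a * as x y z) * as u v w

lemma K_cyc1 (n a x y z u v w : Q) : K n a x y z u v w = K n a y z x u v w := by
  unfold K; rw [pc1 hQ x y z]

lemma K_cyc2 (n a x y z u v w : Q) : K n a x y z u v w = K n a x y z v w u := by
  unfold K; rw [pc1 hQ u v w]

lemma K12 {n : Q} (hn : IsNuc n) (a x y z u v w : Q) : K n a x y z u v w = -K n x a y z u v w := by
  unfold K; rw [skew hQ hn a x, neg_mul]

lemma K15 {n : Q} (hn : IsNuc n) (a x y z u v w : Q) : K n a x y z u v w = -K n u x y z a v w := by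
  unfold K
  rw [ncomm hQ (hn.comm hQ a), mnul hQ (hn.comm hQ a), skew hQ hn a u, mul_neg,
    ncomm hQ (hn.comm hQ u) x y z, mnul hQ (hn.comm hQ u)]

lemma K25 {n : Q} (hn : IsNuc n) (a x y z u v w : Q) : K n a x y z u v w = -K n a u y z x v w := by
  rw [K12 hQ hn, K15 hQ hn, K12 hQ hn u]
  rw [neg_neg]

/-- exchanging the two associators changes the sign -/
lemma Kswap {n : Q} (hn : IsNuc n) (a x y z u v w : Q) : K n a x y z u v w = -K n a u v w x y z := by
  rw [K25 hQ hn, K_cyc1 hQ n a u y z, K_cyc2 hQ n a y z u x v w, K25 hQ hn a y z u v w x,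
    K_cyc1 hQ n a v z u, K_cyc2 hQ n a z u v y w x, K25 hQ hn a z u v w x y,
    K_cyc1 hQ n a w u v, K_cyc2 hQ n a u v w z x y]
  rw [neg_neg]

/-- exchanging the two associators does not change the value -/
lemma Ksymm {n : Q} (hn : IsNuc n) (a x y z u v w : Q) : K n a x y z u v w = K n a u v w x y z := by
  have hm := hn.comm hQ a
  have h := cocycle u v w (as x y z)
  have h' := congrArg (fun t => br n a * t) h
  simp only [mul_add, mul_sub, mul_zero] at h'
  have e1 : br n a * (u * as v w (as x y z)) = 0 := by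
    rw [nmul hm, show br n a * u = u * br n a + br (br n a) u by unfold br; abel, add_mul,
      mnul hQ hm, zero3 hQ hn, mul_zero, zero_add, pc2 hQ v w, skew hQ hm, br_as hQ hm, zero_mul,
      neg_zero]
  rw [e1, zero3 hQ hn, zero3 hQ hn] at h'
  have e2 : br n a * as u v (w * as x y z) = -K n w x y z a u v := by
    rw [pc2 hQ u v, skew hQ hn, br_pa hQ hn]; rfl
  have e3 : br n a * (as u v w * as x y z) = K n a u v w x y z := by
    rw [nmul hm]; rfl
  rw [e2, e3, K15 hQ hn w x y z a u v, K_cyc2 hQ n a x y z w u v] at h'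
  linear_combination (norm := abel) -h'

lemma K_two {n : Q} (hn : IsNuc n) (a x y z u v w : Q) :
    K n a x y z u v w + K n a x y z u v w = 0 := by
  have h1 := Kswap hQ hn a x y z u v w
  have h2 := Ksymm hQ hn a x y z u v w
  rw [← h2] at h1
  linear_combination (norm := abel) h1

end ring

section alg
variable {Φ : Type} [CommRing Φ] {A : Type} [NonUnitalNonAssocRing A] [Module Φ A]
  [IsScalarTower Φ A A] [SMulCommClass Φ A A]

/-- the associator ideal consists of sums of elements `p` and `p w`, `p` an associator -/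
lemma Dideal_le : Dideal Φ A ≤
    Submodule.span Φ ({z | ∃ x y t : A, z = as x y t} ∪ {z | ∃ x y t w : A, z = as x y t * w}) := by
  have ga : ∀ x y t : A, as x y t ∈
      Submodule.span Φ ({z | ∃ x y t : A, z = as x y t} ∪ {z | ∃ x y t w : A, z = as x y t * w}) :=
    fun x y t => Submodule.subset_span (Or.inl ⟨x, y, t, rfl⟩)
  have gb : ∀ x y t w : A, as x y t * w ∈
      Submodule.span Φ ({z | ∃ x y t : A, z = as x y t} ∪ {z | ∃ x y t w : A, z = as x y t * w}) :=
    fun x y t w => Submodule.subset_span (Or.inr ⟨x, y, t, w, rfl⟩)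
  have gc : ∀ c x y t : A, c * as x y t = as (c * x) y t - as c (x * y) t + as c x (y * t) - as c x y * t := by
    intro c x y t
    have h := cocycle c x y t
    linear_combination (norm := abel) h
  refine sInf_le ⟨?_, ?_⟩
  · intro a x hx
    induction hx using Submodule.span_induction with
    | mem x hx =>
      rcases hx with ⟨x, y, t, rfl⟩ | ⟨x, y, t, w, rfl⟩
      · refine ⟨?_, gb _ _ _ _⟩
        rw [gc]
        exact Submodule.sub_mem _ (Submodule.add_mem _ (Submodule.sub_mem _ (ga _ _ _) (ga _ _ _))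
          (ga _ _ _)) (gb _ _ _ _)
      · have e : ∀ p u v : A, (p * u) * v = as p u v + p * (u * v) := by
          intro p u v; unfold as; abel
        constructor
        · have e2 : a * (as x y t * w) = (a * as x y t) * w - as a (as x y t) w := by
            unfold as; abel
          rw [e2, gc, sub_mul, add_mul, sub_mul, e (as a x y) t w]
          exact Submodule.sub_mem _ (Submodule.sub_mem _ (Submodule.add_mem _
            (Submodule.sub_mem _ (gb _ _ _ _) (gb _ _ _ _)) (gb _ _ _ _))
            (Submodule.add_mem _ (ga _ _ _) (gb _ _ _ _))) (ga _ _ _)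
        · rw [e]
          exact Submodule.add_mem _ (ga _ _ _) (gb _ _ _ _)
    | zero => exact ⟨by rw [mul_zero]; exact Submodule.zero_mem _, by rw [zero_mul]; exact Submodule.zero_mem _⟩
    | add x y _ _ hx hy =>
      exact ⟨by rw [mul_add]; exact Submodule.add_mem _ hx.1 hy.1,
        by rw [add_mul]; exact Submodule.add_mem _ hx.2 hy.2⟩
    | smul r x _ hx =>
      exact ⟨by rw [mul_smul_comm]; exact Submodule.smul_mem _ _ hx.1,
        by rw [smul_mul_assoc]; exact Submodule.smul_mem _ _ hx.2⟩
  · rintro z ⟨a, b, c, rfl⟩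
    exact ga a b c

lemma as_mem (x y t : A) : as x y t ∈ Dideal Φ A :=
  sub_idealGen _ ⟨x, y, t, rfl⟩

lemma D_isIdeal : IsIdeal Φ A (Dideal Φ A) := isIdeal_idealGen _

lemma br_add2 (n a b : A) : br n (a + b) = br n a + br n b := by
  unfold br; rw [mul_add, add_mul]; abel

lemma br_smul2 (r : Φ) (n a : A) : br n (r • a) = r • br n a := by
  unfold br; rw [mul_smul_comm, smul_mul_assoc, smul_sub]

/-- `2 [n, d] (a, b, c) = 0` for `d` in the associator ideal -/
lemma D_kill (hA : IsAlt A) {d : A} (hd : d ∈ Dideal Φ A) {n : A} (hn : IsNuc n) (a b c : A) :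
    br n d * as a b c + br n d * as a b c = 0 := by
  have hd' := Dideal_le hd
  clear hd
  induction hd' using Submodule.span_induction with
  | mem x hx =>
    rcases hx with ⟨x, y, t, rfl⟩ | ⟨x, y, t, w, rfl⟩
    · rw [br_as hA hn, zero_mul, add_zero]
    · rw [br_ap hA hn]
      exact K_two hA hn w x y t a b c
  | zero =>
    have : br n (0 : A) = 0 := by unfold br; simp
    rw [this, zero_mul, add_zero]
  | add x y _ _ hx hy =>
    rw [br_add2, add_mul]
    linear_combination (norm := abel) hx + hy
  | smul r x _ hx =>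
    rw [br_smul2, smul_mul_assoc, ← smul_add, hx, smul_zero]

/-- the ideal `2 [N, A] D` -/
def J (Φ : Type) [CommRing Φ] (A : Type) [NonUnitalNonAssocRing A] [Module Φ A]
    [IsScalarTower Φ A A] [SMulCommClass Φ A A] : Submodule Φ A :=
  Submodule.span Φ {z | ∃ n a d : A, IsNuc n ∧ d ∈ Dideal Φ A ∧ z = br n a * d + br n a * d}

lemma gen_J {n a d : A} (hn : IsNuc n) (hd : d ∈ Dideal Φ A) :
    br n a * d + br n a * d ∈ J Φ A := Submodule.subset_span ⟨n, a, d, hn, hd, rfl⟩

lemma J_isIdeal (hA : IsAlt A) : IsIdeal Φ A (J Φ A) := by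
  intro c x hx
  induction hx using Submodule.span_induction with
  | mem x hx =>
    obtain ⟨n, a, d, hn, hd, rfl⟩ := hx
    have hm := hn.comm hA a
    constructor
    · have e : c * (br n a * d + br n a * d) = (br n a * (c * d) + br n a * (c * d)) -
          (br (br n a) c * d + br (br n a) c * d) := by
        have h1 : c * (br n a * d) = br n a * (c * d) - br (br n a) c * d := by
          rw [← mnul hA hm, nmul hm]
          have h2 : br (br n a) c = br n a * c - c * br n a := rfl
          rw [h2, sub_mul]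
          abel
        rw [mul_add, h1]
        abel
      rw [e]
      exact Submodule.sub_mem _ (gen_J hn (D_isIdeal c d hd).1) (gen_J hm hd)
    · rw [add_mul, ← nmul hm]
      exact gen_J hn (D_isIdeal c d hd).2
  | zero => exact ⟨by rw [mul_zero]; exact Submodule.zero_mem _, by rw [zero_mul]; exact Submodule.zero_mem _⟩
  | add x y _ _ hx hy =>
    exact ⟨by rw [mul_add]; exact Submodule.add_mem _ hx.1 hy.1,
      by rw [add_mul]; exact Submodule.add_mem _ hx.2 hy.2⟩
  | smul r x _ hx =>
    exact ⟨by rw [mul_smul_comm]; exact Submodule.smul_mem _ _ hx.1,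
      by rw [smul_mul_assoc]; exact Submodule.smul_mem _ _ hx.2⟩

lemma J_le (hA : IsAlt A) : J Φ A ≤ nucleus Φ A := by
  refine Submodule.span_le.mpr ?_
  rintro x ⟨n, a, d, hn, hd, rfl⟩
  refine (mem_nucleus hA).mpr ?_
  intro b c
  have hm := hn.comm hA a
  rw [as_add1, hm.mul_left hA, skew hA hn a d b c]
  have h := D_kill hA hd hn a b c
  linear_combination (norm := abel) -h

lemma J_le_U (hA : IsAlt A) : J Φ A ≤ Uideal Φ A := by
  unfold Uideal
  exact le_sSup ⟨J_isIdeal hA, J_le hA⟩

lemma J_le_D : J Φ A ≤ Dideal Φ A := by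
  refine Submodule.span_le.mpr ?_
  rintro x ⟨n, a, d, hn, hd, rfl⟩
  exact Submodule.add_mem _ (D_isIdeal _ _ hd).1 (D_isIdeal _ _ hd).1

/-- `U(A)` is an ideal, and it is contained in the nucleus: it is the largest ideal contained in the nucleus. -/
lemma U_isIdeal : IsIdeal Φ A (Uideal Φ A) := by
  intro a x hx
  constructor
  · have h : Uideal Φ A ≤ (Uideal Φ A).comap (LinearMap.mulLeft Φ a) := by
      refine sSup_le fun I hI x hx => ?_
      exact (le_sSup hI : I ≤ sSup _) (hI.1 a x hx).1
    exact h hx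
  · have h : Uideal Φ A ≤ (Uideal Φ A).comap (LinearMap.mulRight Φ a) := by
      refine sSup_le fun I hI x hx => ?_
      exact (le_sSup hI : I ≤ sSup _) (hI.1 a x hx).2
    exact h hx

lemma U_le : Uideal Φ A ≤ nucleus Φ A := by
  unfold Uideal
  exact sSup_le fun I hI => hI.2

end alg

end Pool.Agent.Run7.h351.Dor
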