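import Mathlib

set_option autoImplicit false

namespace Run7.h351.Onn

/-- nine bits, a `3 × 3` matrix over `F₂` -/
structure B9 where
  a : Bool
  b : Bool
  c : Bool
  d : Bool
  e : Bool
  f : Bool
  g : Bool
  h : Bool
  i : Bool

namespace B9

/-- product -/
def mul (x y : B9) : B9 :=
  ⟨((x.a && y.a) ^^ (x.b && y.d)) ^^ (x.c && y.g),
   ((x.a && y.b) ^^ (x.b && y.e)) ^^ (x.c && y.h),
   ((x.a && y.c) ^^ (x.b && y.f)) ^^ (x.c && y.i),
   ((x.d && y.a) ^^ (x.e && y.d)) ^^ (x.f && y.g),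
   ((x.d && y.b) ^^ (x.e && y.e)) ^^ (x.f && y.h),
   ((x.d && y.c) ^^ (x.e && y.f)) ^^ (x.f && y.i),
   ((x.g && y.a) ^^ (x.h && y.d)) ^^ (x.i && y.g),
   ((x.g && y.b) ^^ (x.h && y.e)) ^^ (x.i && y.h),
   ((x.g && y.c) ^^ (x.h && y.f)) ^^ (x.i && y.i)⟩

/-- sum -/
def add (x y : B9) : B9 :=
  ⟨x.a ^^ y.a, x.b ^^ y.b, x.c ^^ y.c, x.d ^^ y.d, x.e ^^ y.e, x.f ^^ y.f, x.g ^^ y.g,
    x.h ^^ y.h, x.i ^^ y.i⟩

/-- identity -/
def one : B9 := ⟨true, false, false, false, true, false, false, false, true⟩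

/-- determinant -/
def det (x : B9) : Bool :=
  ((x.a && ((x.e && x.i) ^^ (x.f && x.h))) ^^ (x.b && ((x.d && x.i) ^^ (x.f && x.g)))) ^^
    (x.c && ((x.d && x.h) ^^ (x.e && x.g)))

/-- equality test -/
def eqb (x y : B9) : Bool :=
  (x.a == y.a) && (x.b == y.b) && (x.c == y.c) && (x.d == y.d) && (x.e == y.e) && (x.f == y.f) &&
    (x.g == y.g) && (x.h == y.h) && (x.i == y.i)

/-- `1 + u vᵀ` -/
def inv (u1 u2 u3 v1 v2 v3 : Bool) : B9 :=
  add one ⟨u1 && v1, u1 && v2, u1 && v3, u2 && v1, u2 && v2, u2 && v3, u3 && v1, u3 && v2,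
    u3 && v3⟩

/-- nonzero vectors -/
def vecs : List (Bool × Bool × Bool) :=
  [(true, false, false), (false, true, false), (false, false, true), (true, true, false),
    (true, false, true), (false, true, true), (true, true, true)]

/-- candidate centralising elements -/
def cands (x : B9) : List B9 :=
  x :: add one x :: add (add one x) (mul x x) ::
    vecs.flatMap (fun u => vecs.map (fun v => inv u.1 u.2.1 u.2.2 v.1 v.2.1 v.2.2))

/-- the test -/
def chk (x : B9) : Bool :=
  (cands x).any (fun g => det g && !(eqb g one) && eqb (mul g x) (mul x g))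

set_option maxRecDepth 100000 in
theorem chk_all : ∀ a b c d e f g h i : Bool, chk ⟨a, b, c, d, e, f, g, h, i⟩ = true := by
  decide

/-- bit to `ZMod 2` -/
def z (b : Bool) : ZMod 2 := if b then 1 else 0

theorem z_and (a b : Bool) : z (a && b) = z a * z b := by revert a b; decide
theorem z_xor (a b : Bool) : z (a ^^ b) = z a + z b := by revert a b; decide
theorem z_inj (a b : Bool) : z a = z b ↔ a = b := by revert a b; decide

/-- to matrices -/
def toM (x : B9) : Matrix (Fin 3) (Fin 3) (ZMod 2) :=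
  !![z x.a, z x.b, z x.c; z x.d, z x.e, z x.f; z x.g, z x.h, z x.i]

theorem toM_mul (x y : B9) : toM (mul x y) = toM x * toM y := by
  ext i j
  fin_cases i <;> fin_cases j <;>
    (simp [toM, mul, Matrix.mul_apply, Fin.sum_univ_three, z_and, z_xor]; ring)

theorem toM_one : toM one = 1 := by
  ext i j
  fin_cases i <;> fin_cases j <;> simp [toM, one, z]

theorem toM_det (x : B9) : (toM x).det = z (det x) := by
  rw [Matrix.det_fin_three]
  simp only [toM, det, z_and, z_xor]
  simp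
  have h2 : (2 : ZMod 2) = 0 := rfl
  linear_combination (z x.a * z x.f * z x.h + z x.b * z x.d * z x.i + z x.c * z x.e * z x.g) * (-h2)

theorem toM_inj (x y : B9) (h : toM x = toM y) : eqb x y = true := by
  have h' : ∀ i j, toM x i j = toM y i j := fun i j => by rw [h]
  have h00 := h' 0 0
  have h01 := h' 0 1
  have h02 := h' 0 2
  have h10 := h' 1 0
  have h11 := h' 1 1
  have h12 := h' 1 2
  have h20 := h' 2 0
  have h21 := h' 2 1
  have h22 := h' 2 2
  simp only [toM, Matrix.of_apply, Matrix.cons_val', Matrix.cons_val_zero, Matrix.cons_val_one,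
    Matrix.cons_val, z_inj] at h00 h01 h02 h10 h11 h12 h20 h21 h22
  simp [eqb, h00, h01, h02, h10, h11, h12, h20, h21, h22]

theorem eq_of_eqb (x y : B9) (h : eqb x y = true) : x = y := by
  simp only [eqb, Bool.and_eq_true, beq_iff_eq] at h
  cases x; cases y
  simp_all

theorem exists_toM (β : Matrix (Fin 3) (Fin 3) (ZMod 2)) : ∃ x, toM x = β := by
  have hz : ∀ t : ZMod 2, z (decide (t = 1)) = t := by decide
  refine ⟨⟨decide (β 0 0 = 1), decide (β 0 1 = 1), decide (β 0 2 = 1), decide (β 1 0 = 1),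
    decide (β 1 1 = 1), decide (β 1 2 = 1), decide (β 2 0 = 1), decide (β 2 1 = 1),
    decide (β 2 2 = 1)⟩, ?_⟩
  ext i j
  fin_cases i <;> fin_cases j <;> simp only [toM, hz] <;> rfl

end B9

open Matrix in
/-- every matrix over `F₂` of size `3` commutes with an invertible matrix other than `1` -/
theorem exists_comm (β : Matrix (Fin 3) (Fin 3) (ZMod 2)) :
    ∃ g : GL (Fin 3) (ZMod 2), g ≠ 1 ∧ g.val * β = β * g.val := by
  obtain ⟨x, rfl⟩ := B9.exists_toM β
  have h := B9.chk_all x.a x.b x.c x.d x.e x.f x.g x.h x.i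
  simp only [B9.chk, List.any_eq_true] at h
  obtain ⟨g, -, hg⟩ := h
  simp only [Bool.and_eq_true, Bool.not_eq_true'] at hg
  obtain ⟨⟨h1, h2⟩, h3⟩ := hg
  have hu : IsUnit (B9.toM g).det := by
    rw [B9.toM_det, h1]
    exact isUnit_one
  refine ⟨Matrix.GeneralLinearGroup.mk'' (B9.toM g) hu, ?_, ?_⟩
  · intro h0
    have h4 : B9.toM g = B9.toM B9.one := by
      rw [B9.toM_one]
      exact congrArg Units.val h0
    rw [B9.toM_inj _ _ h4] at h2
    exact absurd h2 (by decide)
  · show B9.toM g * B9.toM x = B9.toM x * B9.toM g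
    rw [← B9.toM_mul, ← B9.toM_mul, B9.eq_of_eqb _ _ h3]

end Run7.h351.Onn
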