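import Mathlib

set_option autoImplicit false

namespace Run7.h351.Onn

open Module

section Mono

set_option linter.unusedSectionVars false
set_option linter.style.haveILetI false

variable {G : Type} [Group G] [Finite G]

/-- functions on `G` that transform on the right under `S` through `X` -/
def monoSpace (S : Subgroup G) (X : G → ℂ) : Submodule ℂ (G → ℂ) where
  carrier := {f | ∀ g, ∀ s ∈ S, f (g * s) = X s * f g}
  add_mem' := by
    intro a b ha hb g s hs
    simp only [Pi.add_apply]
    rw [ha g s hs, hb g s hs]; ring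
  zero_mem' := by
    intro g s hs; simp
  smul_mem' := by
    intro c a ha g s hs
    simp only [Pi.smul_apply, smul_eq_mul]
    rw [ha g s hs]; ring

/-- left translation action -/
def monoRep (S : Subgroup G) (X : G → ℂ) : Representation ℂ G (monoSpace S X) where
  toFun x :=
    { toFun := fun f => ⟨fun g => f.1 (x⁻¹ * g), by
        intro g s hs
        have := f.2 (x⁻¹ * g) s hs
        simpa [mul_assoc] using this⟩
      map_add' := by intro a b; ext g; simp
      map_smul' := by intro c a; ext g; simp }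
  map_one' := by
    ext f g; simp
  map_mul' := by
    intro x y
    ext f g
    simp [mul_assoc]

@[simp] theorem monoRep_apply (S : Subgroup G) (X : G → ℂ) (x : G) (f : monoSpace S X) (g : G) :
    (monoRep S X x f).1 g = f.1 (x⁻¹ * g) := rfl

open Classical in
/-- the basic functions -/
noncomputable def dl (S : Subgroup G) (X : G → ℂ)
    (hXm : ∀ s ∈ S, ∀ t ∈ S, X (s * t) = X s * X t) (y : G) : monoSpace S X :=
  ⟨fun g => if y⁻¹ * g ∈ S then X (y⁻¹ * g) else 0, by
    intro g s hs
    have hiff : y⁻¹ * (g * s) ∈ S ↔ y⁻¹ * g ∈ S := by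
      rw [← mul_assoc]; exact S.mul_mem_cancel_right hs
    by_cases h : y⁻¹ * g ∈ S
    · simp only [hiff.2 h, h, if_true]
      rw [← mul_assoc, hXm _ h _ hs]; ring
    · have h' : ¬ y⁻¹ * (g * s) ∈ S := fun h2 => h (hiff.1 h2)
      simp only [h, h', if_false, mul_zero]⟩

open Classical in
theorem dl_apply (S : Subgroup G) (X : G → ℂ)
    (hXm : ∀ s ∈ S, ∀ t ∈ S, X (s * t) = X s * X t) (y g : G) :
    (dl S X hXm y).1 g = if y⁻¹ * g ∈ S then X (y⁻¹ * g) else 0 := rfl

theorem monoRep_dl (S : Subgroup G) (X : G → ℂ)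
    (hXm : ∀ s ∈ S, ∀ t ∈ S, X (s * t) = X s * X t) (x y : G) :
    monoRep S X x (dl S X hXm y) = dl S X hXm (x * y) := by
  apply Subtype.ext
  funext g
  have h : (x * y)⁻¹ * g = y⁻¹ * (x⁻¹ * g) := by group
  rw [monoRep_apply, dl_apply, dl_apply, h]

/-- the monomial representation criterion -/
theorem mono_irred (S K : Subgroup G) (hKS : K ≤ S) (hK : K.Normal) (X : G → ℂ)
    (hX1 : X 1 = 1)
    (hXm : ∀ s ∈ S, ∀ t ∈ S, X (s * t) = X s * X t)
    (hsep : ∀ g, (∀ k ∈ K, X (g⁻¹ * k * g) = X k) → g ∈ S) :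
    ∃ (V : Type) (_ : AddCommGroup V) (_ : Module ℂ V) (ρ : Representation ℂ G V),
      FiniteDimensional ℂ V ∧ Nontrivial V ∧
      (∀ W : Submodule ℂ V, (∀ g v, v ∈ W → ρ g v ∈ W) → W = ⊥ ∨ W = ⊤) ∧
      (∀ k ∈ K, X k ≠ 1 → ρ k ≠ 1) ∧ Module.finrank ℂ V = S.index := by
  classical
  haveI : Fintype K := Fintype.ofFinite _
  have hinv : ∀ s ∈ S, X s * X s⁻¹ = 1 := by
    intro s hs
    rw [← hXm s hs s⁻¹ (S.inv_mem hs), mul_inv_cancel, hX1]
  have hne : ∀ s ∈ S, X s ≠ 0 := by
    intro s hs h0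
    have := hinv s hs
    rw [h0, zero_mul] at this
    exact zero_ne_one this
  -- value on left translates by K
  have hKact : ∀ (f : monoSpace S X) (k : G), k ∈ K → ∀ g : G,
      (monoRep S X k f).1 g = X (g⁻¹ * k⁻¹ * g) * f.1 g := by
    intro f k hk g
    rw [monoRep_apply]
    have h1 : k⁻¹ * g = g * (g⁻¹ * k⁻¹ * g) := by group
    have h2 : g⁻¹ * k⁻¹ * g ∈ K := by
      have := hK.conj_mem k⁻¹ (K.inv_mem hk) g⁻¹
      simpa using this
    rw [h1, f.2 g _ (hKS h2)]
  have hKconj : ∀ k ∈ K, ∀ y : G, y⁻¹ * k * y ∈ K := by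
    intro k hk y
    have := hK.conj_mem k hk y⁻¹
    simpa using this
  -- the projection
  have hproj : ∀ (y : G) (f : monoSpace S X),
      (∑ k : K, X (y⁻¹ * (k : G) * y) • monoRep S X (k : G) f)
        = ((Nat.card K : ℂ) * f.1 y) • dl S X hXm y := by
    intro y f
    apply Subtype.ext
    funext g
    have hL : (∑ k : K, X (y⁻¹ * (k : G) * y) • monoRep S X (k : G) f).1 g
        = ∑ k : K, X (y⁻¹ * (k : G) * y) * (X (g⁻¹ * (k : G)⁻¹ * g) * f.1 g) := by
      rw [Submodule.coe_sum, Finset.sum_apply]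
      refine Finset.sum_congr rfl ?_
      intro k _
      have := hKact f k k.2 g
      simp only [SetLike.val_smul, Pi.smul_apply, smul_eq_mul]
      rw [this]
    rw [hL]
    have hR : (((Nat.card K : ℂ) * f.1 y) • dl S X hXm y).1 g
        = ((Nat.card K : ℂ) * f.1 y) * (if y⁻¹ * g ∈ S then X (y⁻¹ * g) else 0) := rfl
    rw [hR]
    by_cases h : y⁻¹ * g ∈ S
    · simp only [h, if_true]
      have hg : f.1 g = X (y⁻¹ * g) * f.1 y := by
        have := f.2 y _ h
        rwa [mul_inv_cancel_left] at this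
      have hc : ∀ k : K, X (y⁻¹ * (k : G) * y) * (X (g⁻¹ * (k : G)⁻¹ * g) * f.1 g) = f.1 g := by
        intro k
        have e1 : g⁻¹ * (k : G)⁻¹ * g
            = (y⁻¹ * g)⁻¹ * ((y⁻¹ * (k : G) * y)⁻¹ * (y⁻¹ * g)) := by group
        have m1 : y⁻¹ * (k : G) * y ∈ S := hKS (hKconj k k.2 y)
        rw [e1, hXm _ (S.inv_mem h) _ (S.mul_mem (S.inv_mem m1) h), hXm _ (S.inv_mem m1) _ h]
        have i1 := hinv _ h
        have i2 := hinv _ m1
        calc X (y⁻¹ * (k : G) * y) * (X (y⁻¹ * g)⁻¹ * (X (y⁻¹ * (k : G) * y)⁻¹ * X (y⁻¹ * g)) * f.1 g)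
            = (X (y⁻¹ * (k : G) * y) * X (y⁻¹ * (k : G) * y)⁻¹) *
              (X (y⁻¹ * g) * X (y⁻¹ * g)⁻¹) * f.1 g := by ring
          _ = f.1 g := by rw [i1, i2]; ring
      rw [Finset.sum_congr rfl (fun k _ => hc k)]
      simp only [Finset.sum_const, Finset.card_univ, nsmul_eq_mul]
      rw [hg, Nat.card_eq_fintype_card]; ring
    · simp only [h, if_false, mul_zero]
      -- find k0
      have hex : ∃ k0 ∈ K, X ((y⁻¹ * g)⁻¹ * k0 * (y⁻¹ * g)) ≠ X k0 := by
        by_contra hcon
        push Not at hcon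
        exact h (hsep _ hcon)
      obtain ⟨k0, hk0, hk0'⟩ := hex
      have hk1 : y * k0 * y⁻¹ ∈ K := hK.conj_mem k0 hk0 y
      set k1 : K := ⟨y * k0 * y⁻¹, hk1⟩ with hk1def
      let c : K → ℂ := fun k => X (y⁻¹ * (k : G) * y) * X (g⁻¹ * (k : G)⁻¹ * g)
      have hcm : ∀ k k' : K, c (k * k') = c k * c k' := by
        intro k k'
        simp only [c]
        have e1 : y⁻¹ * ((k * k' : K) : G) * y = (y⁻¹ * (k : G) * y) * (y⁻¹ * (k' : G) * y) := by
          push_cast; group
        have e2 : g⁻¹ * ((k * k' : K) : G)⁻¹ * g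
            = (g⁻¹ * (k' : G)⁻¹ * g) * (g⁻¹ * (k : G)⁻¹ * g) := by
          push_cast; group
        rw [e1, e2, hXm _ (hKS (hKconj _ k.2 y)) _ (hKS (hKconj _ k'.2 y)),
          hXm _ (hKS (hKconj _ (K.inv_mem k'.2) g)) _ (hKS (hKconj _ (K.inv_mem k.2) g))]
        ring
      have hc1 : c k1 ≠ 1 := by
        intro hc
        apply hk0'
        have e1 : y⁻¹ * (k1 : G) * y = k0 := by simp only [hk1def]; group
        have e2 : g⁻¹ * (k1 : G)⁻¹ * g = ((y⁻¹ * g)⁻¹ * k0 * (y⁻¹ * g))⁻¹ := by
          simp only [hk1def]; group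
        have m : (y⁻¹ * g)⁻¹ * k0 * (y⁻¹ * g) ∈ S := hKS (hKconj _ hk0 _)
        simp only [c] at hc
        rw [e1, e2] at hc
        have i := hinv _ m
        calc X ((y⁻¹ * g)⁻¹ * k0 * (y⁻¹ * g))
            = X ((y⁻¹ * g)⁻¹ * k0 * (y⁻¹ * g)) * (X k0 * X ((y⁻¹ * g)⁻¹ * k0 * (y⁻¹ * g))⁻¹) := by
              rw [hc, mul_one]
          _ = X k0 * (X ((y⁻¹ * g)⁻¹ * k0 * (y⁻¹ * g)) * X ((y⁻¹ * g)⁻¹ * k0 * (y⁻¹ * g))⁻¹) := by
              ring
          _ = X k0 := by rw [i, mul_one]
      have hsum : ∑ k : K, c k = 0 := by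
        have e : ∑ k : K, c k = c k1 * ∑ k : K, c k := by
          rw [Finset.mul_sum]
          rw [← Equiv.sum_comp (Equiv.mulLeft k1) c]
          refine Finset.sum_congr rfl ?_
          intro k _
          exact hcm k1 k
        have e' : (1 - c k1) * ∑ k : K, c k = 0 := by
          rw [sub_mul, one_mul, ← e, sub_self]
        rcases mul_eq_zero.1 e' with h1 | h1
        · exact absurd (sub_eq_zero.1 h1).symm hc1
        · exact h1
      have : ∑ k : K, X (y⁻¹ * (k : G) * y) * (X (g⁻¹ * (k : G)⁻¹ * g) * f.1 g)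
          = (∑ k : K, c k) * f.1 g := by
        rw [Finset.sum_mul]
        refine Finset.sum_congr rfl ?_
        intro k _
        simp only [c]; ring
      rw [this, hsum, zero_mul]
  have hcardK : (Nat.card K : ℂ) ≠ 0 := by
    exact_mod_cast Nat.card_pos.ne'
  have hdl1 : ∀ y, (dl S X hXm y).1 y = 1 := by
    intro y
    rw [dl_apply, inv_mul_cancel, if_pos S.one_mem, hX1]
  -- expansion
  have hexp : ∀ f : monoSpace S X, f = ∑ᶠ q : G ⧸ S, f.1 q.out • dl S X hXm q.out := by
    intro f
    haveI : Fintype (G ⧸ S) := Fintype.ofFinite _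
    rw [finsum_eq_sum_of_fintype]
    apply Subtype.ext
    funext g
    rw [Submodule.coe_sum, Finset.sum_apply]
    rw [Finset.sum_eq_single (QuotientGroup.mk g : G ⧸ S)]
    · have hm : (QuotientGroup.mk g : G ⧸ S).out⁻¹ * g ∈ S := by
        rw [← QuotientGroup.eq]; simp
      have := f.2 (QuotientGroup.mk g : G ⧸ S).out _ hm
      rw [mul_inv_cancel_left] at this
      simp only [SetLike.val_smul, Pi.smul_apply, smul_eq_mul, dl_apply, hm, if_true]
      rw [this]; ring
    · intro q _ hq
      have hm : ¬ (q.out⁻¹ * g ∈ S) := by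
        rw [← QuotientGroup.eq]
        intro h2
        apply hq
        rw [← h2]; simp
      simp only [SetLike.val_smul, Pi.smul_apply, smul_eq_mul, dl_apply, hm, if_false, mul_zero]
    · intro h2; exact absurd (Finset.mem_univ _) h2
  refine ⟨monoSpace S X, inferInstance, inferInstance, monoRep S X, inferInstance, ?_, ?_, ?_, ?_⟩
  · refine ⟨⟨dl S X hXm 1, 0, ?_⟩⟩
    intro h0
    have := hdl1 1
    rw [h0] at this
    simp at this
  · intro W hW
    by_cases hbot : W = ⊥
    · exact Or.inl hbot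
    · right
      obtain ⟨f, hf, hf0⟩ := (Submodule.ne_bot_iff W).1 hbot
      have : ∃ y, f.1 y ≠ 0 := by
        by_contra hcon
        push Not at hcon
        apply hf0
        apply Subtype.ext
        funext y
        exact hcon y
      obtain ⟨y, hy⟩ := this
      have hdy : dl S X hXm y ∈ W := by
        have hp := hproj y f
        have hmem : (∑ k : K, X (y⁻¹ * (k : G) * y) • monoRep S X (k : G) f) ∈ W :=
          Submodule.sum_mem _ (fun k _ => W.smul_mem _ (hW _ _ hf))
        rw [hp] at hmem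
        exact (W.smul_mem_iff (mul_ne_zero hcardK hy)).1 hmem
      have hall : ∀ x, dl S X hXm x ∈ W := by
        intro x
        have := hW (x * y⁻¹) _ hdy
        rw [monoRep_dl] at this
        simpa using this
      rw [eq_top_iff]
      intro f' _
      rw [hexp f']
      haveI : Fintype (G ⧸ S) := Fintype.ofFinite _
      rw [finsum_eq_sum_of_fintype]
      exact Submodule.sum_mem _ (fun q _ => W.smul_mem _ (hall _))
  · intro k hk hk1 hρ
    apply hk1
    have h1 := hKact (dl S X hXm 1) k⁻¹ (K.inv_mem hk) 1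
    have hρ' : monoRep S X k⁻¹ = 1 := by
      have h2 : monoRep S X (k * k⁻¹) = 1 := by rw [mul_inv_cancel, map_one]
      rw [map_mul, hρ, one_mul] at h2
      exact h2
    rw [hρ'] at h1
    simp only [Module.End.one_apply, inv_one, one_mul, mul_one, inv_inv] at h1
    rw [hdl1 1, mul_one] at h1
    exact h1.symm
  · haveI : Fintype (G ⧸ S) := Fintype.ofFinite _
    let L : monoSpace S X →ₗ[ℂ] ((G ⧸ S) → ℂ) :=
      { toFun := fun f q => f.1 q.out
        map_add' := by intro a b; rfl
        map_smul' := by intro c a; rfl }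
    have hbij : Function.Bijective L := by
      constructor
      · intro a b hab
        rw [hexp a, hexp b]
        have : ∀ q : G ⧸ S, a.1 q.out = b.1 q.out := fun q => congrFun hab q
        simp only [this]
      · intro φ
        refine ⟨∑ q : G ⧸ S, φ q • dl S X hXm q.out, ?_⟩
        funext q'
        show (∑ q : G ⧸ S, φ q • dl S X hXm q.out).1 q'.out = φ q'
        rw [Submodule.coe_sum, Finset.sum_apply, Finset.sum_eq_single q']
        · simp only [SetLike.val_smul, Pi.smul_apply, smul_eq_mul]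
          rw [hdl1, mul_one]
        · intro q _ hq
          have hm : ¬ (q.out⁻¹ * q'.out ∈ S) := by
            rw [← QuotientGroup.eq]
            intro h2
            apply hq
            simpa using h2
          simp only [SetLike.val_smul, Pi.smul_apply, smul_eq_mul, dl_apply, hm, if_false,
            mul_zero]
        · intro h2; exact absurd (Finset.mem_univ _) h2
    rw [(LinearEquiv.ofBijective L hbij).finrank_eq, Module.finrank_fintype_fun_eq_card,
      Subgroup.index, Nat.card_eq_fintype_card]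

end Mono

end Run7.h351.Onn
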