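import Mathlib
import Pool.Agent.Run7.h351.OnnMono

set_option autoImplicit false

namespace Run7.h351.Onn

open Module Matrix

/-- data: a surjection `π : A → F` onto a field whose kernel is generated by `w`, with `w² = 0`,
annihilator of `w` equal to the kernel -/
structure Sq {A F : Type} [CommRing A] [Field F] (π : A →+* F) (w : A) : Prop where
  surj : Function.Surjective π
  sq : w * w = 0
  ker : ∀ a, π a = 0 → ∃ b, a = w * b
  ann : ∀ a, π a = 0 → w * a = 0
  piw : π w = 0

section
variable {A F : Type} [CommRing A] [Field F] {π : A →+* F} {w : A}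

theorem Sq.mul_zero (h : Sq π w) {a b : A} (ha : π a = 0) (hb : π b = 0) : a * b = 0 := by
  obtain ⟨c, rfl⟩ := h.ker a ha
  rw [mul_assoc, mul_comm c b, ← mul_assoc, h.ann b hb, MulZeroClass.zero_mul]

theorem Sq.isUnit (h : Sq π w) {a : A} (ha : π a ≠ 0) : IsUnit a := by
  obtain ⟨b, hb⟩ := h.surj (π a)⁻¹
  have h1 : π (a * b - 1) = 0 := by
    rw [map_sub, map_mul, hb, mul_inv_cancel₀ ha, map_one, sub_self]
  have h2 : (a * b - 1) * (a * b - 1) = 0 := h.mul_zero h1 h1
  have h3 : a * (b * (2 - a * b)) = 1 := by linear_combination -h2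
  exact IsUnit.of_mul_eq_one _ h3

/-- the elements `1 + w M` -/
def kap (h : Sq π w) (M : Matrix (Fin 3) (Fin 3) A) : GL (Fin 3) A where
  val := 1 + w • M
  inv := 1 - w • M
  val_inv := by
    have : (w • M) * (w • M) = 0 := by
      rw [Matrix.smul_mul, Matrix.mul_smul, smul_smul, h.sq, zero_smul]
    rw [add_mul, mul_sub, mul_sub, this]; simp
  inv_val := by
    have : (w • M) * (w • M) = 0 := by
      rw [Matrix.smul_mul, Matrix.mul_smul, smul_smul, h.sq, zero_smul]
    rw [sub_mul, mul_add, mul_add, this]; simp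

theorem kap_val (h : Sq π w) (M : Matrix (Fin 3) (Fin 3) A) : (kap h M).val = 1 + w • M := rfl

theorem kap_mul (h : Sq π w) (M N : Matrix (Fin 3) (Fin 3) A) :
    kap h M * kap h N = kap h (M + N) := by
  apply Units.ext
  rw [Units.val_mul, kap_val, kap_val, kap_val]
  have : (w • M) * (w • N) = 0 := by
    rw [Matrix.smul_mul, Matrix.mul_smul, smul_smul, h.sq, zero_smul]
  rw [add_mul, mul_add, mul_add, this]
  simp [smul_add, add_assoc, add_comm]

theorem kap_conj (h : Sq π w) (M : Matrix (Fin 3) (Fin 3) A) (g : GL (Fin 3) A) :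
    g⁻¹ * kap h M * g = kap h (g⁻¹.val * M * g.val) := by
  apply Units.ext
  rw [Units.val_mul, Units.val_mul, kap_val, kap_val]
  rw [mul_add, add_mul, mul_one, Units.inv_mul]
  simp

theorem kap_eq_one (h : Sq π w) (M : Matrix (Fin 3) (Fin 3) A) (hM : ∀ i j, π (M i j) = 0) :
    kap h M = 1 := by
  apply Units.ext
  rw [kap_val]
  have : w • M = 0 := by
    ext i j
    rw [Matrix.smul_apply, smul_eq_mul, h.ann _ (hM i j)]; rfl
  rw [this, add_zero]; rfl

theorem kap_one (h : Sq π w) : kap h 0 = 1 := by
  apply kap_eq_one; intro i j; simp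

/-- reduction -/
abbrev red (π : A →+* F) : GL (Fin 3) A →* GL (Fin 3) F := Matrix.GeneralLinearGroup.map π

theorem red_apply (g : GL (Fin 3) A) (i j : Fin 3) : (red π g).val i j = π (g.val i j) := rfl

theorem red_val (g : GL (Fin 3) A) : (red π g).val = g.val.map π := rfl

theorem kap_mem_ker (h : Sq π w) (M : Matrix (Fin 3) (Fin 3) A) : kap h M ∈ (red π).ker := by
  rw [MonoidHom.mem_ker]
  apply Units.ext
  ext i j
  rw [red_apply, kap_val]
  simp only [Matrix.add_apply, Matrix.smul_apply, smul_eq_mul, map_add, map_mul, h.piw,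
    MulZeroClass.zero_mul, add_zero]
  by_cases hij : i = j
  · subst hij; simp
  · simp [hij]

theorem mem_ker_iff (h : Sq π w) (g : GL (Fin 3) A) :
    g ∈ (red π).ker ↔ ∃ M, g = kap h M := by
  constructor
  · intro hg
    rw [MonoidHom.mem_ker] at hg
    have h1 : ∀ i j, π ((g.val - 1) i j) = 0 := by
      intro i j
      have h2 : (red π g).val i j = (1 : GL (Fin 3) F).val i j := by rw [hg]
      rw [red_apply] at h2
      rw [Matrix.sub_apply, map_sub, h2]
      by_cases hij : i = j
      · subst hij; simp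
      · simp [hij]
    have h3 : ∀ i j, ∃ b, (g.val - 1) i j = w * b := fun i j => h.ker _ (h1 i j)
    choose M hM using h3
    refine ⟨Matrix.of M, ?_⟩
    apply Units.ext
    rw [kap_val]
    ext i j
    have := hM i j
    rw [Matrix.sub_apply, sub_eq_iff_eq_add] at this
    rw [this, Matrix.add_apply, Matrix.smul_apply, smul_eq_mul, Matrix.of_apply]; ring
  · rintro ⟨M, rfl⟩
    exact kap_mem_ker h M

theorem red_surj (h : Sq π w) : Function.Surjective (red π) := by
  intro g
  have h1 : ∀ i j, ∃ a, π a = g.val i j := fun i j => h.surj _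
  choose M hM using h1
  have hdet : IsUnit (Matrix.det (Matrix.of M)) := by
    apply h.isUnit
    rw [RingHom.map_det]
    have : π.mapMatrix (Matrix.of M) = g.val := by
      ext i j
      exact hM i j
    rw [this]
    exact (Matrix.isUnits_det_units g).ne_zero
  refine ⟨Matrix.GeneralLinearGroup.mk'' (Matrix.of M) hdet, ?_⟩
  apply Units.ext
  ext i j
  rw [red_apply]
  exact hM i j

end

end Run7.h351.Onn
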