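import Mathlib
import Pool.Agent.Run7.h351.OnnSq

set_option autoImplicit false

namespace Run7.h351.Onn

set_option linter.style.haveILetI false

open Module Matrix

section
variable {F : Type} [Field F]

/-- the diagonal matrix `(0,1,2)` -/
def DD (F : Type) [Field F] : Matrix (Fin 3) (Fin 3) F := Matrix.diagonal ![0, 1, 2]

/-- the torus as a centraliser -/
def TT (F : Type) [Field F] : Subgroup (GL (Fin 3) F) where
  carrier := {g | g.val * DD F = DD F * g.val}
  mul_mem' := by
    intro a b ha hb
    simp only [Set.mem_ofPred_eq] at ha hb ⊢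
    rw [Units.val_mul, mul_assoc, hb, ← mul_assoc, ha, mul_assoc]
  one_mem' := by simp
  inv_mem' := by
    intro a ha
    simp only [Set.mem_ofPred_eq] at ha ⊢
    calc a⁻¹.val * DD F = a⁻¹.val * (DD F * a.val) * a⁻¹.val := by
            rw [mul_assoc, mul_assoc, Units.mul_inv, mul_one]
      _ = a⁻¹.val * (a.val * DD F) * a⁻¹.val := by rw [ha]
      _ = DD F * a⁻¹.val := by rw [← mul_assoc, Units.inv_mul, one_mul]

theorem mem_TT_iff (h2 : (2 : F) ≠ 0) (g : GL (Fin 3) F) :
    g ∈ TT F ↔ ∀ i j, i ≠ j → g.val i j = 0 := by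
  have key : g ∈ TT F ↔ ∀ i j, g.val i j * (![0, 1, 2] : Fin 3 → F) j
      = (![0, 1, 2] : Fin 3 → F) i * g.val i j := by
    constructor
    · intro h i j
      have h' : g.val * DD F = DD F * g.val := h
      have := congrFun (congrFun h' i) j
      rwa [DD, Matrix.mul_diagonal, Matrix.diagonal_mul] at this
    · intro h
      show g.val * DD F = DD F * g.val
      ext i j
      rw [DD, Matrix.mul_diagonal, Matrix.diagonal_mul]
      exact h i j
  rw [key]
  constructor
  · intro h i j hij
    have h1 := h i j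
    have h3 : g.val i j * ((![0, 1, 2] : Fin 3 → F) j - (![0, 1, 2] : Fin 3 → F) i) = 0 := by
      rw [mul_sub, h1]; ring
    rcases mul_eq_zero.1 h3 with h4 | h4
    · exact h4
    · exfalso
      have e10 : (1 : F) - 0 ≠ 0 := by rw [sub_zero]; exact one_ne_zero
      have e20 : (2 : F) - 0 ≠ 0 := by rw [sub_zero]; exact h2
      have e21 : (2 : F) - 1 ≠ 0 := by
        have : (2 : F) - 1 = 1 := by ring
        rw [this]; exact one_ne_zero
      have e01 : (0 : F) - 1 ≠ 0 := by
        intro h0; apply e10; linear_combination -h0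
      have e02 : (0 : F) - 2 ≠ 0 := by
        intro h0; apply e20; linear_combination -h0
      have e12 : (1 : F) - 2 ≠ 0 := by
        intro h0; apply e21; linear_combination -h0
      fin_cases i <;> fin_cases j
      · exact hij rfl
      · exact e10 h4
      · exact e20 h4
      · exact e01 h4
      · exact hij rfl
      · exact e21 h4
      · exact e02 h4
      · exact e12 h4
      · exact hij rfl
  · intro h i j
    by_cases hij : i = j
    · subst hij; ring
    · rw [h i j hij]; ring

/-- the torus is `(Fˣ)^3` -/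
theorem card_TT [Finite F] (h2 : (2 : F) ≠ 0) :
    Nat.card (TT F) = (Nat.card F - 1) ^ 3 := by
  classical
  haveI : Fintype F := Fintype.ofFinite F
  have hdiag : ∀ g ∈ TT F, ∀ i, g.val i i ≠ 0 := by
    intro g hg i h0
    rw [mem_TT_iff h2] at hg
    have hdet : Matrix.det g.val = 0 := by
      apply Matrix.det_eq_zero_of_row_eq_zero i
      intro j
      by_cases hij : i = j
      · subst hij; exact h0
      · exact hg i j hij
    have := (Matrix.isUnits_det_units g).ne_zero
    exact this hdet
  let e : TT F ≃ (Fin 3 → Fˣ) :=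
    { toFun := fun g i => Units.mk0 (g.1.val i i) (hdiag g.1 g.2 i)
      invFun := fun f => ⟨⟨Matrix.diagonal (fun i => (f i : F)),
          Matrix.diagonal (fun i => ((f i)⁻¹ : Fˣ) : Fin 3 → F), by
            rw [Matrix.diagonal_mul_diagonal]; simp, by
            rw [Matrix.diagonal_mul_diagonal]; simp⟩, by
          rw [mem_TT_iff h2]
          intro i j hij
          exact Matrix.diagonal_apply_ne _ hij⟩
      left_inv := by
        intro g
        apply Subtype.ext
        apply Units.ext
        ext i j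
        by_cases hij : i = j
        · subst hij; simp
        · have := (mem_TT_iff h2 g.1).1 g.2 i j hij
          simp only [Matrix.diagonal_apply_ne _ hij]
          exact this.symm
      right_inv := by
        intro f
        funext i
        apply Units.ext
        simp }
  rw [Nat.card_congr e, Nat.card_fun, Nat.card_eq_fintype_card, Nat.card_eq_fintype_card,
    Fintype.card_units, Nat.card_eq_fintype_card, Fintype.card_fin]

theorem index_TT [Finite F] (h2 : (2 : F) ≠ 0) :
    (TT F).index = Nat.card F ^ 3 * (Nat.card F + 1) * (Nat.card F ^ 2 + Nat.card F + 1) := by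
  classical
  haveI : Fintype F := Fintype.ofFinite F
  have h1 := Subgroup.card_mul_index (TT F)
  rw [card_TT h2, Matrix.card_GL_field 3] at h1
  rw [← Nat.card_eq_fintype_card] at h1
  have hq : 2 ≤ Nat.card F := Finite.one_lt_card
  obtain ⟨m, hm⟩ : ∃ m, Nat.card F = m + 2 := ⟨Nat.card F - 2, by omega⟩
  rw [hm] at h1 ⊢
  rw [Fin.prod_univ_three] at h1
  have e1 : (m + 2) ^ 3 - (m + 2) ^ (((0 : Fin 3) : ℕ)) = (m + 1) * ((m + 2) ^ 2 + (m + 2) + 1) := by
    have : (m + 2) ^ 3 = (m + 1) * ((m + 2) ^ 2 + (m + 2) + 1) + (m + 2) ^ (((0 : Fin 3) : ℕ)) := by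
      simp only [Fin.val_zero, pow_zero]; ring
    omega
  have e2 : (m + 2) ^ 3 - (m + 2) ^ (((1 : Fin 3) : ℕ)) = (m + 2) * ((m + 1) * (m + 3)) := by
    have : (m + 2) ^ 3 = (m + 2) * ((m + 1) * (m + 3)) + (m + 2) ^ (((1 : Fin 3) : ℕ)) := by
      simp only [Fin.val_one, pow_one]; ring
    omega
  have e3 : (m + 2) ^ 3 - (m + 2) ^ (((2 : Fin 3) : ℕ)) = (m + 2) ^ 2 * (m + 1) := by
    have : (m + 2) ^ 3 = (m + 2) ^ 2 * (m + 1) + (m + 2) ^ (((2 : Fin 3) : ℕ)) := by
      simp only [Fin.val_two]; ring
    omega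
  rw [e1, e2, e3] at h1
  have e4 : m + 2 - 1 = m + 1 := by omega
  rw [e4] at h1
  have e5 : (m + 1) * ((m + 2) ^ 2 + (m + 2) + 1) * ((m + 2) * ((m + 1) * (m + 3)))
      * ((m + 2) ^ 2 * (m + 1))
      = (m + 1) ^ 3 * ((m + 2) ^ 3 * (m + 2 + 1) * ((m + 2) ^ 2 + (m + 2) + 1)) := by ring
  rw [e5] at h1
  exact Nat.eq_of_mul_eq_mul_left (by positivity) h1

end

section
variable {A F : Type} [CommRing A] [Finite A] [Field F] {π : A →+* F} {w : A}

/-- existence of the split semisimple representation -/
theorem exists_split (h : Sq π w) (hw : w ≠ 0) (h2 : (2 : F) ≠ 0) :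
    ∃ (V : Type) (_ : AddCommGroup V) (_ : Module ℂ V)
      (ρ : Representation ℂ (GL (Fin 3) A) V),
      FiniteDimensional ℂ V ∧ Nontrivial V ∧
      (∀ W : Submodule ℂ V, (∀ g v, v ∈ W → ρ g v ∈ W) → W = ⊥ ∨ W = ⊤) ∧
      (∃ M : Matrix (Fin 3) (Fin 3) A, ρ (kap h M) ≠ 1) ∧
      Module.finrank ℂ V
        = Nat.card F ^ 3 * (Nat.card F + 1) * (Nat.card F ^ 2 + Nat.card F + 1) := by
  classical
  haveI : Finite F := Finite.of_surjective π h.surj
  have h1w : (1 + w : A) ≠ 1 := by
    intro h0
    apply hw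
    exact add_eq_left.1 h0
  obtain ⟨θ, hθ⟩ := MulChar.exists_apply_ne_one_of_hasEnoughRootsOfUnity A ℂ h1w
  let e : A → ℂ := fun a => θ (1 + w * a)
  have he0 : e 0 = 1 := by simp [e]
  have headd : ∀ a b, e (a + b) = e a * e b := by
    intro a b
    simp only [e]
    rw [← map_mul]
    congr 1
    linear_combination -a * b * h.sq
  have he1 : e 1 ≠ 1 := by simpa [e] using hθ
  have heker : ∀ a, (∀ b, e (a * b) = 1) → π a = 0 := by
    intro a ha
    by_contra h0
    obtain ⟨u, hu⟩ := h.isUnit h0
    have := ha (↑u⁻¹ : A)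
    rw [← hu, Units.mul_inv] at this
    exact he1 this
  let X : GL (Fin 3) A → ℂ := fun g => θ (g.val 1 1) * θ (g.val 2 2) ^ 2
  let S : Subgroup (GL (Fin 3) A) := (TT F).comap (red π)
  have hSmem : ∀ g ∈ S, ∀ i j, i ≠ j → π (g.val i j) = 0 := by
    intro g hg i j hij
    have hg' : red π g ∈ TT F := hg
    rw [mem_TT_iff h2] at hg'
    exact hg' i j hij
  have hX1 : X 1 = 1 := by simp [X]
  have hXm : ∀ s ∈ S, ∀ t ∈ S, X (s * t) = X s * X t := by
    intro s hs t ht
    have hs' := hSmem s hs
    have ht' := hSmem t ht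
    have e1 : (s * t).val 1 1 = s.val 1 1 * t.val 1 1 := by
      rw [Units.val_mul, Matrix.mul_apply, Fin.sum_univ_three,
        h.mul_zero (hs' 1 0 (by decide)) (ht' 0 1 (by decide)),
        h.mul_zero (hs' 1 2 (by decide)) (ht' 2 1 (by decide))]
      ring
    have e2 : (s * t).val 2 2 = s.val 2 2 * t.val 2 2 := by
      rw [Units.val_mul, Matrix.mul_apply, Fin.sum_univ_three,
        h.mul_zero (hs' 2 0 (by decide)) (ht' 0 2 (by decide)),
        h.mul_zero (hs' 2 1 (by decide)) (ht' 1 2 (by decide))]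
      ring
    simp only [X]
    rw [e1, e2, map_mul, map_mul]; ring
  have hXkap : ∀ M, X (kap h M) = e (M 1 1 + 2 * M 2 2) := by
    intro M
    have e1 : (kap h M).val 1 1 = 1 + w * M 1 1 := by
      rw [kap_val]; simp
    have e2 : (kap h M).val 2 2 = 1 + w * M 2 2 := by
      rw [kap_val]; simp
    have e3 : M 1 1 + 2 * M 2 2 = M 1 1 + (M 2 2 + M 2 2) := by ring
    rw [e3, headd, headd]
    simp only [X]
    rw [e1, e2]
    simp only [e]; ring
  have hKS : (red π).ker ≤ S := by
    intro g hg
    show red π g ∈ TT F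
    rw [MonoidHom.mem_ker.1 hg]
    exact (TT F).one_mem
  let D : Matrix (Fin 3) (Fin 3) A := Matrix.diagonal ![0, 1, 2]
  have hDmap : D.map π = DD F := by
    ext i j
    simp only [D, DD, Matrix.map_apply]
    by_cases hij : i = j
    · subst hij
      simp only [Matrix.diagonal_apply_eq]
      fin_cases i
      · simp
      · simp
      · simpa using map_ofNat π 2
    · simp [Matrix.diagonal_apply_ne _ hij]
  have hDtr : ∀ M : Matrix (Fin 3) (Fin 3) A, M 1 1 + 2 * M 2 2 = Matrix.trace (D * M) := by
    intro M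
    rw [Matrix.trace, Fin.sum_univ_three]
    simp only [Matrix.diag_apply, D, Matrix.diagonal_mul]
    simp
  have hsep : ∀ g, (∀ k ∈ (red π).ker, X (g⁻¹ * k * g) = X k) → g ∈ S := by
    intro g hg
    have h3 : ∀ M, e (Matrix.trace (D * (g⁻¹.val * M * g.val))) = e (Matrix.trace (D * M)) := by
      intro M
      have := hg (kap h M) (kap_mem_ker h M)
      rw [kap_conj, hXkap, hXkap, hDtr, hDtr] at this
      exact this
    have h4 : ∀ M, Matrix.trace (D * (g⁻¹.val * M * g.val))
        = Matrix.trace ((g.val * D * g⁻¹.val) * M) := by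
      intro M
      rw [← mul_assoc, Matrix.trace_mul_comm, ← mul_assoc, ← mul_assoc]
    have h5 : ∀ M, e (Matrix.trace ((g.val * D * g⁻¹.val - D) * M)) = 1 := by
      intro M
      have h6 := h3 M
      rw [h4] at h6
      have h7 : Matrix.trace ((g.val * D * g⁻¹.val) * M)
          = Matrix.trace ((g.val * D * g⁻¹.val - D) * M) + Matrix.trace (D * M) := by
        rw [← Matrix.trace_add, ← add_mul, sub_add_cancel]
      rw [h7, headd] at h6
      have hne : e (Matrix.trace (D * M)) ≠ 0 := by
        intro h0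
        have := headd (Matrix.trace (D * M)) (-Matrix.trace (D * M))
        rw [add_neg_cancel, he0, h0, zero_mul] at this
        exact one_ne_zero this
      exact mul_right_cancel₀ hne (h6.trans (one_mul _).symm)
    have h6 : ∀ i j, π ((g.val * D * g⁻¹.val - D) i j) = 0 := by
      intro i j
      apply heker
      intro b
      have := h5 (Matrix.single j i b)
      rw [Matrix.trace_mul_single] at this
      simpa [mul_comm] using this
    have h7 : (g.val * D * g⁻¹.val - D).map π = 0 := by
      ext i j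
      rw [Matrix.map_apply, h6]; rfl
    have h8 : g.val.map π * DD F = DD F * g.val.map π := by
      have h9 : (g.val * D - D * g.val) = (g.val * D * g⁻¹.val - D) * g.val := by
        rw [sub_mul, mul_assoc (g.val * D), Units.inv_mul, mul_one]
      have h10 : (g.val * D - D * g.val).map π = 0 := by
        rw [h9, Matrix.map_mul, h7, zero_mul]
      rw [Matrix.map_sub (f := π) (map_sub π), Matrix.map_mul, Matrix.map_mul, hDmap, sub_eq_zero] at h10
      exact h10
    exact h8
  obtain ⟨V, i1, i2, ρ, r1, r2, r3, r4, r5⟩ :=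
    mono_irred S (red π).ker hKS inferInstance X hX1 hXm hsep
  refine ⟨V, i1, i2, ρ, r1, r2, r3, ?_, ?_⟩
  · refine ⟨Matrix.single 1 1 1, r4 _ (kap_mem_ker h _) ?_⟩
    rw [hXkap]
    simpa [Matrix.single] using he1
  · rw [r5, ← index_TT h2]
    exact Subgroup.index_comap_of_surjective (TT F) (red_surj h)

end

end Run7.h351.Onn
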