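import Mathlib
import Pool.Agent.Run7.h351.OnnSq
import Pool.Agent.Run7.h351.OnnFin

set_option autoImplicit false

namespace Run7.h351.Onn

set_option linter.style.haveILetI false

open Module Matrix

/-- dimension bound by the index of the stabiliser of a line -/
theorem dim_le_index {G V : Type} [Group G] [Finite G] [AddCommGroup V] [Module ℂ V]
    (ρ : Representation ℂ G V)
    (hirr : ∀ W : Submodule ℂ V, (∀ g v, v ∈ W → ρ g v ∈ W) → W = ⊥ ∨ W = ⊤)
    (H : Subgroup G) (v : V) (hv : v ≠ 0) (hH : ∀ h ∈ H, ∃ c : ℂ, ρ h v = c • v) :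
    Module.finrank ℂ V ≤ H.index := by
  classical
  haveI : Fintype (G ⧸ H) := Fintype.ofFinite _
  let b : G ⧸ H → V := fun q => ρ q.out v
  let S : Submodule ℂ V := Submodule.span ℂ (Set.range b)
  have hgen : ∀ g : G, ρ g v ∈ S := by
    intro g
    have hm : (QuotientGroup.mk g : G ⧸ H).out⁻¹ * g ∈ H := by
      rw [← QuotientGroup.eq]; simp
    obtain ⟨c, hc⟩ := hH _ hm
    have h1 : ρ g v = c • b (QuotientGroup.mk g : G ⧸ H) := by
      have h2 : g = (QuotientGroup.mk g : G ⧸ H).out * ((QuotientGroup.mk g : G ⧸ H).out⁻¹ * g) := by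
        rw [mul_inv_cancel_left]
      calc ρ g v = ρ ((QuotientGroup.mk g : G ⧸ H).out *
            ((QuotientGroup.mk g : G ⧸ H).out⁻¹ * g)) v := by rw [← h2]
        _ = c • b (QuotientGroup.mk g : G ⧸ H) := by
          rw [map_mul, Module.End.mul_apply, hc, map_smul]
    rw [h1]
    exact S.smul_mem _ (Submodule.subset_span ⟨_, rfl⟩)
  have hinv : ∀ g u, u ∈ S → ρ g u ∈ S := by
    intro g u hu
    have : S ≤ S.comap (ρ g) := by
      rw [Submodule.span_le]
      rintro _ ⟨q, rfl⟩
      show ρ g (ρ q.out v) ∈ S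
      rw [← Module.End.mul_apply, ← map_mul]
      exact hgen _
    exact this hu
  have hne : S ≠ ⊥ := by
    intro h0
    have := hgen 1
    rw [h0, map_one, Module.End.one_apply, Submodule.mem_bot] at this
    exact hv this
  have htop : S = ⊤ := (hirr S hinv).resolve_left hne
  have h3 : Module.finrank ℂ V = Module.finrank ℂ S := by rw [htop, finrank_top]
  rw [h3]
  have h4 : Module.finrank ℂ S ≤ Fintype.card (G ⧸ H) := finrank_range_le_card b
  rwa [Subgroup.index, Nat.card_eq_fintype_card]

/-- common eigenvectors of commuting operators -/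
theorem common_eigen {ι V : Type} [AddCommGroup V] [Module ℂ V] [FiniteDimensional ℂ V]
    [Nontrivial V] (T : ι → Module.End ℂ V) (hT : ∀ i j, T i * T j = T j * T i) :
    ∃ v : V, v ≠ 0 ∧ ∃ ψ : ι → ℂ, ∀ i, T i v = ψ i • v := by
  classical
  let P : Set (Submodule ℂ V) := {U | U ≠ ⊥ ∧ ∀ i, ∀ u ∈ U, T i u ∈ U}
  have hP : (⊤ : Submodule ℂ V) ∈ P := ⟨top_ne_bot, fun i u _ => Submodule.mem_top⟩
  obtain ⟨U, hU, hmin⟩ := WellFounded.has_min (wellFounded_lt (α := Submodule ℂ V)) P ⟨⊤, hP⟩
  obtain ⟨hU0, hUT⟩ := hU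
  have hscal : ∀ i, ∃ c : ℂ, ∀ u ∈ U, T i u = c • u := by
    intro i
    haveI : Nontrivial U := Submodule.nontrivial_iff_ne_bot.2 hU0
    let R : Module.End ℂ U := (T i).restrict (hUT i)
    obtain ⟨c, hc⟩ := Module.End.exists_eigenvalue R
    obtain ⟨u, hu⟩ := hc.exists_hasEigenvector
    refine ⟨c, ?_⟩
    let E : Submodule ℂ V := U ⊓ LinearMap.ker (T i - c • (1 : Module.End ℂ V))
    have hE : E ∈ P := by
      constructor
      · intro h0
        have hmem : (u : V) ∈ E := by
          refine ⟨u.2, ?_⟩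
          have h1 := hu.apply_eq_smul
          have h2 : (R u : V) = T i (u : V) := rfl
          have h3 : ((c • u : U) : V) = c • (u : V) := rfl
          show (u : V) ∈ LinearMap.ker (T i - c • (1 : Module.End ℂ V))
          rw [LinearMap.mem_ker, LinearMap.sub_apply, LinearMap.smul_apply, Module.End.one_apply,
            ← h2, h1, h3, sub_self]
        rw [h0, Submodule.mem_bot] at hmem
        exact hu.2 (Subtype.ext hmem)
      · intro j x hx
        refine ⟨hUT j x hx.1, ?_⟩
        have h1 : x ∈ LinearMap.ker (T i - c • (1 : Module.End ℂ V)) := hx.2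
        show T j x ∈ LinearMap.ker (T i - c • (1 : Module.End ℂ V))
        rw [LinearMap.mem_ker, LinearMap.sub_apply, LinearMap.smul_apply, Module.End.one_apply,
          sub_eq_zero] at h1 ⊢
        have h2 : T i (T j x) = T j (T i x) := by
          rw [← Module.End.mul_apply, hT, Module.End.mul_apply]
        rw [h2, h1, map_smul]
    have hEU : ¬ E < U := hmin E hE
    have hle : E ≤ U := inf_le_left
    have hEq : E = U := by
      rcases lt_or_eq_of_le hle with h | h
      · exact absurd h hEU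
      · exact h
    intro x hx
    rw [← hEq] at hx
    have h1 : x ∈ LinearMap.ker (T i - c • (1 : Module.End ℂ V)) := hx.2
    rw [LinearMap.mem_ker, LinearMap.sub_apply, LinearMap.smul_apply, Module.End.one_apply,
      sub_eq_zero] at h1
    exact h1
  choose ψ hψ using hscal
  obtain ⟨v, hv, hv0⟩ := (Submodule.ne_bot_iff U).1 hU0
  exact ⟨v, hv0, ψ, fun i => hψ i v hv⟩

section
variable {A : Type} [CommRing A] [Finite A] {π : A →+* ZMod 2} {w : A}

theorem dim_le_84 (h : @Sq A (ZMod 2) _ (ZMod.instField 2) π w) {V : Type} [AddCommGroup V] [Module ℂ V] [FiniteDimensional ℂ V]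
    [Nontrivial V] (ρ : Representation ℂ (GL (Fin 3) A) V)
    (hirr : ∀ W : Submodule ℂ V, (∀ g v, v ∈ W → ρ g v ∈ W) → W = ⊥ ∨ W = ⊤) :
    Module.finrank ℂ V ≤ 84 := by
  classical
  -- a common eigenvector
  obtain ⟨v0, hv0, Ψ, hΨ⟩ := common_eigen (fun M : Matrix (Fin 3) (Fin 3) A => ρ (kap h M)) (by
    intro M N
    rw [← map_mul, ← map_mul, kap_mul, kap_mul, add_comm])
  have hΨu : ∀ {a b : ℂ}, a • v0 = b • v0 → a = b := by
    intro a b hab
    exact smul_left_injective ℂ hv0 hab
  have hadd : ∀ M N, Ψ (M + N) = Ψ M * Ψ N := by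
    intro M N
    apply hΨu
    rw [← hΨ, ← kap_mul, map_mul, Module.End.mul_apply, hΨ, map_smul, hΨ, smul_smul, mul_comm]
  have hker : ∀ M, (∀ i j, π (M i j) = 0) → Ψ M = 1 := by
    intro M hM
    apply hΨu
    rw [← hΨ, kap_eq_one h M hM, map_one, Module.End.one_apply, one_smul]
  have hpm : ∀ M, Ψ M = 1 ∨ Ψ M = -1 := by
    intro M
    have h1 : Ψ M * Ψ M = 1 := by
      rw [← hadd]
      apply hker
      intro i j
      rw [Matrix.add_apply, map_add]
      generalize π (M i j) = x
      revert x; decide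
    exact mul_self_eq_one_iff.1 h1
  let ε : ZMod 2 → ℂ := fun x => if x = 0 then 1 else -1
  have hε : ∀ x y, ε (x + y) = ε x * ε y := by
    intro x y
    have h01 : ∀ t : ZMod 2, t = 0 ∨ t = 1 := by decide
    have e0 : ε 0 = 1 := if_pos rfl
    have e1 : ε 1 = -1 := if_neg (by decide)
    have e2 : ε (1 + 1) = 1 := if_pos (by decide)
    rcases h01 x with rfl | rfl <;> rcases h01 y with rfl | rfl
    · rw [add_zero, e0, one_mul]
    · rw [zero_add, e0, one_mul]
    · rw [add_zero, e0, mul_one]
    · rw [e2, e1]; norm_num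
  let β : Matrix (Fin 3) (Fin 3) (ZMod 2) :=
    fun i j => if Ψ (Matrix.single j i 1) = 1 then 0 else 1
  have hsingle : ∀ i j a, Ψ (Matrix.single i j a) = ε (β j i * π a) := by
    intro i j a
    have h01 : ∀ t : ZMod 2, t = 0 ∨ t = 1 := by decide
    have e0 : ε 0 = 1 := if_pos rfl
    have e1 : ε 1 = -1 := if_neg (by decide)
    rcases h01 (π a) with ha | ha
    · rw [ha, mul_zero, e0]
      apply hker
      intro k l
      by_cases hkl : i = k ∧ j = l
      · obtain ⟨rfl, rfl⟩ := hkl
        rw [Matrix.single_apply_same, ha]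
      · rw [Matrix.single_apply_of_ne _ _ _ _ _ hkl, map_zero]
    · have h1 : Ψ (Matrix.single i j a) = Ψ (Matrix.single i j 1) := by
        have h2 : Matrix.single i j a = Matrix.single i j 1 + Matrix.single i j (a - 1) := by
          rw [← Matrix.single_add]; congr 1; ring
        rw [h2, hadd]
        have h3 : Ψ (Matrix.single i j (a - 1)) = 1 := by
          apply hker
          intro k l
          by_cases hkl : i = k ∧ j = l
          · obtain ⟨rfl, rfl⟩ := hkl
            rw [Matrix.single_apply_same, map_sub, ha, map_one, sub_self]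
          · rw [Matrix.single_apply_of_ne _ _ _ _ _ hkl, map_zero]
        rw [h3, mul_one]
      rw [h1, ha, mul_one]
      show Ψ (Matrix.single i j 1) = ε (if Ψ (Matrix.single i j 1) = 1 then 0 else 1)
      by_cases h4 : Ψ (Matrix.single i j 1) = 1
      · rw [if_pos h4, e0, h4]
      · rw [if_neg h4, e1]
        exact (hpm _).resolve_left h4
  have hΨsum : ∀ (s : Finset (Fin 3 × Fin 3)) (f : Fin 3 × Fin 3 → Matrix (Fin 3) (Fin 3) A),
      Ψ (∑ p ∈ s, f p) = ∏ p ∈ s, Ψ (f p) := by
    intro s f
    induction s using Finset.induction_on with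
    | empty =>
      rw [Finset.sum_empty, Finset.prod_empty]
      apply hker
      intro i j; simp
    | insert p s hp ih => rw [Finset.sum_insert hp, Finset.prod_insert hp, hadd, ih]
  have hεsum : ∀ (s : Finset (Fin 3 × Fin 3)) (f : Fin 3 × Fin 3 → ZMod 2),
      ε (∑ p ∈ s, f p) = ∏ p ∈ s, ε (f p) := by
    intro s f
    induction s using Finset.induction_on with
    | empty => rw [Finset.sum_empty, Finset.prod_empty]; exact if_pos rfl
    | insert p s hp ih => rw [Finset.sum_insert hp, Finset.prod_insert hp, hε, ih]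
  have hΨβ : ∀ M, Ψ M = ε (Matrix.trace (β * M.map π)) := by
    intro M
    have e1 : M = ∑ p : Fin 3 × Fin 3, Matrix.single p.1 p.2 (M p.1 p.2) := by
      rw [Fintype.sum_prod_type]
      exact Matrix.matrix_eq_sum_single M
    have e2 : Matrix.trace (β * M.map π) = ∑ p : Fin 3 × Fin 3, β p.2 p.1 * π (M p.1 p.2) := by
      rw [Fintype.sum_prod_type, Matrix.trace, Finset.sum_comm]
      refine Finset.sum_congr rfl ?_
      intro i _
      rw [Matrix.diag_apply, Matrix.mul_apply]
      rfl
    rw [e2, hεsum]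
    conv_lhs => rw [e1]
    rw [hΨsum]
    refine Finset.prod_congr rfl ?_
    intro p _
    exact hsingle _ _ _
  obtain ⟨gb, hgb1, hgb⟩ := exists_comm β
  obtain ⟨g, hg⟩ := red_surj h gb
  have hstab : ∀ M, Ψ (g⁻¹.val * M * g.val) = Ψ M := by
    intro M
    rw [hΨβ, hΨβ]
    congr 1
    have e1 : (g⁻¹.val * M * g.val).map π = gb⁻¹.val * M.map π * gb.val := by
      rw [Matrix.map_mul, Matrix.map_mul, ← hg, ← map_inv]
      rfl
    rw [e1, ← mul_assoc, Matrix.trace_mul_comm, ← mul_assoc, ← mul_assoc, hgb, mul_assoc β,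
      Units.mul_inv, mul_one]
  -- the isotypic space
  let U : Submodule ℂ V := ⨅ M : Matrix (Fin 3) (Fin 3) A,
    LinearMap.ker (ρ (kap h M) - Ψ M • (1 : Module.End ℂ V))
  have hU : ∀ x, x ∈ U ↔ ∀ M, ρ (kap h M) x = Ψ M • x := by
    intro x
    simp only [U, Submodule.mem_iInf, LinearMap.mem_ker, LinearMap.sub_apply,
      LinearMap.smul_apply, Module.End.one_apply, sub_eq_zero]
  have hUg : ∀ x ∈ U, ρ g x ∈ U := by
    intro x hx
    rw [hU] at hx ⊢
    intro M
    have e1 : kap h M * g = g * kap h (g⁻¹.val * M * g.val) := by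
      rw [← kap_conj]; group
    rw [← Module.End.mul_apply, ← map_mul, e1, map_mul, Module.End.mul_apply, hx, map_smul, hstab]
  haveI : Nontrivial U := Submodule.nontrivial_iff_ne_bot.2 (by
    intro h0
    have : v0 ∈ U := (hU v0).2 hΨ
    rw [h0, Submodule.mem_bot] at this
    exact hv0 this)
  obtain ⟨c, hc⟩ := Module.End.exists_eigenvalue ((ρ g).restrict hUg)
  obtain ⟨u, hu⟩ := hc.exists_hasEigenvector
  have hu1 : ρ g (u : V) = c • (u : V) := by
    have h1 := hu.apply_eq_smul
    have h2 : (((ρ g).restrict hUg) u : V) = ρ g (u : V) := rfl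
    have h3 : ((c • u : U) : V) = c • (u : V) := rfl
    rw [← h2, h1, h3]
  have hu0 : (u : V) ≠ 0 := fun h0 => hu.2 (Subtype.ext h0)
  -- stabiliser of the line
  let H : Subgroup (GL (Fin 3) A) :=
    { carrier := {x | ∃ c : ℂ, ρ x (u : V) = c • (u : V)}
      mul_mem' := by
        rintro a b ⟨c1, h1⟩ ⟨c2, h2⟩
        exact ⟨c2 * c1, by rw [map_mul, Module.End.mul_apply, h2, map_smul, h1, smul_smul]⟩
      one_mem' := ⟨1, by rw [map_one, Module.End.one_apply, one_smul]⟩
      inv_mem' := by
        rintro a ⟨c1, h1⟩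
        have hc1 : c1 ≠ 0 := by
          intro h0
          rw [h0, zero_smul] at h1
          have h2 : ρ (a⁻¹ * a) (u : V) = 0 := by
            rw [map_mul, Module.End.mul_apply, h1, map_zero]
          rw [inv_mul_cancel, map_one, Module.End.one_apply] at h2
          exact hu0 h2
        refine ⟨c1⁻¹, ?_⟩
        have h2 : ρ a⁻¹ (ρ a (u : V)) = (u : V) := by
          rw [← Module.End.mul_apply, ← map_mul, inv_mul_cancel, map_one, Module.End.one_apply]
        rw [h1, map_smul] at h2
        rw [← h2, smul_smul, inv_mul_cancel₀ hc1, one_smul, h2] }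
  have hdim := dim_le_index ρ hirr H (u : V) hu0 (fun x hx => hx)
  have hK : (red π).ker ≤ H := by
    intro x hx
    obtain ⟨M, rfl⟩ := (mem_ker_iff h x).1 hx
    exact ⟨Ψ M, (hU _).1 u.2 M⟩
  have hgH : g ∈ H := ⟨c, hu1⟩
  have hidx : H.index = (H.map (red π)).index := by
    rw [← Subgroup.index_comap_of_surjective (H.map (red π)) (red_surj h),
      Subgroup.comap_map_eq_self hK]
  have hcard : 2 ≤ Nat.card (H.map (red π)) := by
    have : Nontrivial (H.map (red π)) := by
      refine ⟨⟨⟨red π g, Subgroup.mem_map_of_mem _ hgH⟩, 1, ?_⟩⟩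
      intro h0
      apply hgb1
      have := congrArg Subtype.val h0
      simpa [hg] using this
    exact Finite.one_lt_card
  have hprod := Subgroup.card_mul_index (H.map (red π))
  rw [Matrix.card_GL_field 3, ZMod.card, Fin.prod_univ_three] at hprod
  rw [hidx] at hdim
  generalize Nat.card (H.map (red π)) = x at hprod hcard
  generalize (H.map (red π)).index = y at hprod hdim
  have h168 : x * y = 168 := by rw [hprod]; norm_num
  nlinarith

end

end Run7.h351.Onn
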