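import Mathlib
import Pool.Agent.Run7.h351.OnnP1
import Pool.Agent.Run7.h351.OnnP2

set_option autoImplicit false

namespace Run7.h351.Onn

set_option linter.style.haveILetI false

open Module Matrix IsLocalRing

section
variable (p : ℕ) [hp : Fact p.Prime]

/-- the ring `ℤ_p / m²` -/
abbrev AA : Type := ℤ_[p] ⧸ maximalIdeal ℤ_[p] ^ 2

theorem sq_le : ∀ x ∈ maximalIdeal ℤ_[p] ^ 2, PadicInt.toZMod x = 0 := by
  intro x hx
  have h1 : maximalIdeal ℤ_[p] ^ 2 ≤ maximalIdeal ℤ_[p] := Ideal.pow_le_self (by norm_num)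
  have h2 : x ∈ RingHom.ker (PadicInt.toZMod (p := p)) := by
    rw [PadicInt.ker_toZMod]; exact h1 hx
  exact h2

/-- the reduction map -/
noncomputable def pp : AA p →+* ZMod p := Ideal.Quotient.lift _ PadicInt.toZMod (sq_le p)

theorem pp_mk (x : ℤ_[p]) : pp p (Ideal.Quotient.mk _ x) = PadicInt.toZMod x := rfl

/-- the class of `p` -/
noncomputable def ww : AA p := Ideal.Quotient.mk _ (p : ℤ_[p])

theorem p_mem : (p : ℤ_[p]) ∈ maximalIdeal ℤ_[p] := by
  rw [PadicInt.maximalIdeal_eq_span_p]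
  exact Ideal.mem_span_singleton_self _

theorem sqAA : Sq (pp p) (ww p) where
  surj := by
    intro x
    obtain ⟨y, hy⟩ := ZMod.ringHom_surjective (PadicInt.toZMod (p := p)) x
    exact ⟨Ideal.Quotient.mk _ y, hy⟩
  sq := by
    rw [ww, ← map_mul, Ideal.Quotient.eq_zero_iff_mem, pow_two]
    exact Ideal.mul_mem_mul (p_mem p) (p_mem p)
  ker := by
    intro a ha
    obtain ⟨x, rfl⟩ := Ideal.Quotient.mk_surjective a
    rw [pp_mk] at ha
    have h2 : x ∈ RingHom.ker (PadicInt.toZMod (p := p)) := ha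
    rw [PadicInt.ker_toZMod, PadicInt.maximalIdeal_eq_span_p, Ideal.mem_span_singleton] at h2
    obtain ⟨y, hy⟩ := h2
    exact ⟨Ideal.Quotient.mk _ y, by rw [ww, ← map_mul, ← hy]⟩
  ann := by
    intro a ha
    obtain ⟨x, rfl⟩ := Ideal.Quotient.mk_surjective a
    rw [pp_mk] at ha
    have h2 : x ∈ RingHom.ker (PadicInt.toZMod (p := p)) := ha
    rw [PadicInt.ker_toZMod] at h2
    rw [ww, ← map_mul, Ideal.Quotient.eq_zero_iff_mem, pow_two]
    exact Ideal.mul_mem_mul (p_mem p) h2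
  piw := by
    have h2 : (p : ℤ_[p]) ∈ RingHom.ker (PadicInt.toZMod (p := p)) := by
      rw [PadicInt.ker_toZMod]; exact p_mem p
    exact h2

theorem ker_pow_two : RingHom.ker (PadicInt.toZModPow (p := p) 2) = maximalIdeal ℤ_[p] ^ 2 := by
  rw [PadicInt.ker_toZModPow, PadicInt.maximalIdeal_eq_span_p, Ideal.span_singleton_pow]

instance finAA : Finite (AA p) := by
  have hpos : p ^ 2 ≠ 0 := pow_ne_zero _ hp.out.ne_zero
  haveI : NeZero (p ^ 2) := ⟨hpos⟩
  let f : AA p →+* ZMod (p ^ 2) := Ideal.Quotient.lift _ (PadicInt.toZModPow 2) (by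
    intro a ha
    rw [← ker_pow_two] at ha
    exact ha)
  have hf : Function.Injective f := by
    rw [injective_iff_map_eq_zero]
    intro a ha
    obtain ⟨x, rfl⟩ := Ideal.Quotient.mk_surjective a
    have h2 : x ∈ RingHom.ker (PadicInt.toZModPow (p := p) 2) := ha
    rw [ker_pow_two] at h2
    exact Ideal.Quotient.eq_zero_iff_mem.2 h2
  exact Finite.of_injective f hf

theorem ww_ne : ww p ≠ 0 := by
  intro h0
  rw [ww, Ideal.Quotient.eq_zero_iff_mem, ← ker_pow_two, RingHom.mem_ker, map_natCast] at h0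
  rw [ZMod.natCast_eq_zero_iff] at h0
  have h1 : p ^ 2 ≤ p := Nat.le_of_dvd hp.out.pos h0
  have h2 := hp.out.two_le
  nlinarith

theorem card_res : Nat.card (ResidueField ℤ_[p]) = p := by
  rw [Nat.card_congr (PadicInt.residueField (p := p)).toEquiv, Nat.card_zmod]

end

/-- the set of dimensions in the frozen statement for `N = 3`, `r = 2` -/
def dims (R : Type) [CommRing R] [IsDomain R] [IsDiscreteValuationRing R] : Set ℤ :=
  {z : ℤ | ∃ (V : Type) (_ : AddCommGroup V) (_ : Module ℂ V)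
        (ρ : Representation ℂ
          (Matrix.GeneralLinearGroup (Fin 3) (R ⧸ IsLocalRing.maximalIdeal R ^ 2)) V),
        FiniteDimensional ℂ V ∧ Nontrivial V ∧
        (∀ W : Submodule ℂ V, (∀ g v, v ∈ W → ρ g v ∈ W) → W = ⊥ ∨ W = ⊤) ∧
        (∃ g : Matrix.GeneralLinearGroup (Fin 3) (R ⧸ IsLocalRing.maximalIdeal R ^ 2),
          (∀ i j, ∃ a ∈ IsLocalRing.maximalIdeal R ^ (2 - 1),
            g.val i j
              - (1 : Matrix (Fin 3) (Fin 3) (R ⧸ IsLocalRing.maximalIdeal R ^ 2)) i j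
              = Ideal.Quotient.mk (IsLocalRing.maximalIdeal R ^ 2) a) ∧ ρ g ≠ 1) ∧
        (Module.finrank ℂ V : ℤ) = z}

theorem big_mem (p : ℕ) [hp : Fact p.Prime] (h3 : 3 ≤ p) :
    (p : ℤ) ^ 3 * (p + 1) * (p ^ 2 + p + 1) ∈ dims ℤ_[p] := by
  have h2 : (2 : ZMod p) ≠ 0 := by
    intro h0
    have h1 : ((2 : ℕ) : ZMod p) = 0 := by exact_mod_cast h0
    rw [ZMod.natCast_eq_zero_iff] at h1
    have := Nat.le_of_dvd (by norm_num) h1
    omega
  obtain ⟨V, i1, i2, ρ, r1, r2, r3, ⟨M, hM⟩, r5⟩ := exists_split (sqAA p) (ww_ne p) h2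
  refine ⟨V, i1, i2, ρ, r1, r2, r3, ⟨kap (sqAA p) M, ?_, hM⟩, ?_⟩
  · intro i j
    obtain ⟨x, hx⟩ := Ideal.Quotient.mk_surjective (M i j)
    refine ⟨(p : ℤ_[p]) * x, ?_, ?_⟩
    · have h1 : maximalIdeal ℤ_[p] ^ (2 - 1) = maximalIdeal ℤ_[p] := pow_one _
      rw [h1]
      exact Ideal.mul_mem_right _ _ (p_mem p)
    · rw [kap_val, Matrix.add_apply, add_sub_cancel_left, Matrix.smul_apply, smul_eq_mul, ← hx,
        map_mul]
      rfl
  · rw [r5, Nat.card_zmod]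
    push_cast
    ring

theorem not_168 : (168 : ℤ) ∉ dims ℤ_[2] := by
  rintro ⟨V, i1, i2, ρ, r1, r2, r3, -, r5⟩
  have h := dim_le_84 (sqAA 2) ρ r3
  have h5 : Module.finrank ℂ V = 168 := by exact_mod_cast r5
  omega

theorem no_poly : ¬ ∃ P : Finset (Polynomial ℤ), ∀ (p : ℕ) [Fact p.Prime],
    dims ℤ_[p] = (fun d : Polynomial ℤ => d.eval (p : ℤ)) '' (P : Set (Polynomial ℤ)) := by
  rintro ⟨P, hP⟩
  let Q : Polynomial ℤ := Polynomial.X ^ 3 * (Polynomial.X + 1) * (Polynomial.X ^ 2 + Polynomial.X + 1)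
  have hQ : ∀ x : ℤ, Q.eval x = x ^ 3 * (x + 1) * (x ^ 2 + x + 1) := by
    intro x; simp [Q]
  have hex : ∀ p : ℕ, p.Prime → 3 ≤ p → ∃ d ∈ P, d.eval (p : ℤ) = Q.eval (p : ℤ) := by
    intro p hp h3
    haveI : Fact p.Prime := ⟨hp⟩
    have h1 := big_mem p h3
    rw [hP p] at h1
    obtain ⟨d, hd, hd'⟩ := h1
    exact ⟨d, hd, by rw [hQ]; exact hd'⟩
  have hinf : {x : ℤ | ∃ p : ℕ, p.Prime ∧ 3 ≤ p ∧ x = p}.Infinite := by
    have h1 : {p : ℕ | p.Prime ∧ 3 ≤ p}.Infinite := by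
      rw [Set.infinite_iff_exists_gt]
      intro n
      obtain ⟨p, hp1, hp2⟩ := Nat.exists_infinite_primes (n + 3)
      exact ⟨p, ⟨hp2, by omega⟩, by omega⟩
    have h2 := h1.image (f := fun p : ℕ => (p : ℤ)) (fun a _ b _ h => Nat.cast_injective (R := ℤ) h)
    refine h2.mono ?_
    rintro _ ⟨p, ⟨h3, h4⟩, rfl⟩
    exact ⟨p, h3, h4, rfl⟩
  have hQP : Q ∈ P := by
    by_contra hQP
    apply hinf
    have hsub : {x : ℤ | ∃ p : ℕ, p.Prime ∧ 3 ≤ p ∧ x = p} ⊆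
        ⋃ d ∈ P, {x : ℤ | d.eval x = Q.eval x} := by
      rintro _ ⟨p, h3, h4, rfl⟩
      obtain ⟨d, hd, hd'⟩ := hex p h3 h4
      exact Set.mem_biUnion hd hd'
    refine Set.Finite.subset (Set.Finite.biUnion (Finset.finite_toSet P) ?_) hsub
    intro d hd
    by_contra hfin
    have : d = Q := Polynomial.eq_of_infinite_eval_eq d Q hfin
    exact hQP (this ▸ hd)
  apply not_168
  rw [hP 2]
  refine ⟨Q, hQP, ?_⟩
  show Q.eval ((2 : ℕ) : ℤ) = 168
  rw [hQ]; norm_num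

end Run7.h351.Onn
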