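import Mathlib

/-!
The compact topologist's sine curve `T1 = closure {(x, sin (1/x)) : 0 < x ≤ 1}`.  For every
subcontinuum `C` of `T1` the set of local separating points of `C` is connected, while `T1` itself
is connected and not arcwise connected.

The proof that `T1` is not path connected is adapted from Mathlib's
`Counterexamples/TopologistsSineCurve.lean` (Daniele Bolla, David Loeffler, Apache 2.0).
-/

set_option autoImplicit false

open Topology Filter Set Real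

namespace Run7.h351.Sine

/-- The graph map -/
noncomputable def gr (x : ℝ) : ℝ × ℝ := (x, sin x⁻¹)

/-- A sequence of `x`-values tending to 0 at which the sine curve has a given `y`-coordinate. -/
noncomputable def xSeq (y : ℝ) (k : ℕ) := 1 / (arcsin y + (k + 1) * (2 * π))

lemma xSeq_pos (y : ℝ) (k : ℕ) : 0 < xSeq y k := by
  rw [xSeq, one_div_pos]
  nlinarith [pi_pos, neg_pi_div_two_le_arcsin y]

lemma sin_inv_xSeq {y : ℝ} (hy : y ∈ Icc (-1) 1) (k : ℕ) : sin (xSeq y k)⁻¹ = y := by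
  simpa [xSeq, -Nat.cast_add, ← Nat.cast_succ] using sin_arcsin' hy

lemma xSeq_tendsto (y : ℝ) : Tendsto (xSeq y) atTop (𝓝 0) := by
  refine .comp (g := fun k : ℝ ↦ 1 / (arcsin y + (k + 1) * (2 * π))) ?_ tendsto_natCast_atTop_atTop
  simp only [div_eq_mul_inv, show 𝓝 0 = 𝓝 (1 * (0 : ℝ)) by simp]
  refine (tendsto_inv_atTop_zero.comp <| tendsto_atTop_add_const_left _ _ ?_).const_mul _
  exact (tendsto_atTop_add_const_right _ _ tendsto_id).atTop_mul_const (by positivity)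

/-- For any `0 < a` and any `y ∈ Icc (-1) 1`, we can find `x ∈ Ioo 0 a` with `sin x⁻¹ = y`. -/
lemma exists_mem_Ioo_of_y {y : ℝ} (hy : y ∈ Icc (-1) 1) {a : ℝ} (ha : 0 < a) :
    ∃ x ∈ Ioo 0 a, sin x⁻¹ = y := by
  obtain ⟨N, h_dist⟩ := (Metric.tendsto_nhds.mp (xSeq_tendsto y) a ha).exists
  refine ⟨xSeq y N, ⟨xSeq_pos y N, ?_⟩, sin_inv_xSeq hy _⟩
  rw [dist_eq, sub_zero, abs_of_pos (xSeq_pos _ N)] at h_dist
  exact h_dist

lemma gr_continuousAt {x : ℝ} (hx : 0 < x) : ContinuousAt gr x :=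
  continuousAt_id.prodMk (continuous_sin.continuousAt.comp (continuousAt_inv₀ hx.ne'))

/-- the bar is in the closure of the graph over `(0,b)` -/
lemma bar_mem_closure {y b : ℝ} (hy : y ∈ Icc (-1) 1) (hb : 0 < b) :
    ((0 : ℝ), y) ∈ closure (gr '' Ioo 0 b) := by
  rw [Metric.mem_closure_iff]
  intro ε hε
  obtain ⟨x, hx, hxy⟩ := exists_mem_Ioo_of_y hy (lt_min hb hε)
  refine ⟨gr x, ⟨x, ⟨hx.1, lt_of_lt_of_le hx.2 (min_le_left _ _)⟩, rfl⟩, ?_⟩
  rw [gr, hxy, Prod.dist_eq, dist_self, dist_comm, Real.dist_eq, sub_zero, abs_of_pos hx.1]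
  exact max_lt (lt_of_lt_of_le hx.2 (min_le_right _ _)) hε

lemma gr_mem_closure {x a b : ℝ} (hab : a < b) (hx0 : 0 < x) (hx : x ∈ Icc a b) :
    gr x ∈ closure (gr '' Ioo a b) := by
  have h1 : x ∈ closure (Ioo a b) := by rw [closure_Ioo hab.ne]; exact hx
  exact (gr_continuousAt hx0).continuousWithinAt.mem_closure_image h1

/-- The compact sine curve -/
def T1 : Set (ℝ × ℝ) :=
  {p | p.1 ∈ Icc 0 1 ∧ p.2 ∈ Icc (-1) 1 ∧ (0 < p.1 → p.2 = sin p.1⁻¹)}

lemma gr_mem {x : ℝ} (h0 : 0 < x) (h1 : x ≤ 1) : gr x ∈ T1 :=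
  ⟨⟨h0.le, h1⟩, sin_mem_Icc _, fun _ => rfl⟩

lemma bar_mem {y : ℝ} (hy : y ∈ Icc (-1) 1) : ((0 : ℝ), y) ∈ T1 :=
  ⟨⟨le_rfl, zero_le_one⟩, hy, fun h => absurd h (lt_irrefl _)⟩

lemma isClosed_T1 : IsClosed T1 := by
  apply isClosed_of_closure_subset
  intro p hp
  rw [mem_closure_iff_seq_limit] at hp
  obtain ⟨f, hf, hlim⟩ := hp
  have h1 : Tendsto (fun n => (f n).1) atTop (𝓝 p.1) := (continuous_fst.tendsto p).comp hlim
  have h2 : Tendsto (fun n => (f n).2) atTop (𝓝 p.2) := (continuous_snd.tendsto p).comp hlim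
  refine ⟨isClosed_Icc.mem_of_tendsto h1 (Eventually.of_forall fun n => (hf n).1),
    isClosed_Icc.mem_of_tendsto h2 (Eventually.of_forall fun n => (hf n).2.1), ?_⟩
  intro hp0
  have h3 : ∀ᶠ n in atTop, 0 < (f n).1 := h1.eventually (lt_mem_nhds hp0)
  have h4 : Tendsto (fun n => sin ((f n).1)⁻¹) atTop (𝓝 (sin p.1⁻¹)) := by
    have h5 : ContinuousAt (fun x : ℝ => sin x⁻¹) p.1 :=
      continuous_sin.continuousAt.comp (continuousAt_inv₀ hp0.ne')
    exact h5.tendsto.comp h1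
  have h6 : (fun n => (f n).2) =ᶠ[atTop] fun n => sin ((f n).1)⁻¹ := by
    filter_upwards [h3] with n hn using (hf n).2.2 hn
  exact tendsto_nhds_unique (h2.congr' h6) h4

lemma isCompact_T1 : IsCompact T1 := by
  refine IsCompact.of_isClosed_subset (isCompact_Icc (a := ((0 : ℝ), (-1 : ℝ))) (b := (1, 1)))
    isClosed_T1 ?_
  rintro p ⟨h1, h2, -⟩
  exact ⟨⟨h1.1, h2.1⟩, ⟨h1.2, h2.2⟩⟩

lemma isConnected_T1 : IsConnected T1 := by
  have h1 : IsConnected (gr '' Ioo 0 1) :=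
    (isConnected_Ioo one_pos).image _ (fun x hx => (gr_continuousAt hx.1).continuousWithinAt)
  refine h1.subset_closure ?_ ?_
  · rintro _ ⟨x, hx, rfl⟩
    exact gr_mem hx.1 hx.2.le
  · rintro ⟨x, y⟩ ⟨hx, hy, hxy⟩
    rcases hx.1.eq_or_lt with h0 | h0
    · have h0' : x = 0 := h0.symm
      subst h0'
      exact bar_mem_closure hy one_pos
    · have h3 : (x, y) = gr x := by
        have := hxy h0
        simp only at this
        rw [this]; rfl
      rw [h3]
      exact gr_mem_closure one_pos h0 hx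

/-- the space -/
abbrev XX : Type := T1

instance : CompactSpace XX := isCompact_iff_compactSpace.1 isCompact_T1

instance : ConnectedSpace XX := isConnected_iff_connectedSpace.1 isConnected_T1

/-- local separating points of `C` -/
def LL {X : Type} [TopologicalSpace X] (C : Set X) : Set X :=
  {p : X | p ∈ C ∧ ∃ V : Set X, IsOpen V ∧ p ∈ V ∧
          ¬ IsPreconnected (connectedComponentIn (V ∩ C) p \ {p})}

/-- criterion -/
lemma LL_preconnected {C : Set XX} {f : XX → ℝ} (hf : Continuous f) {γ : ℝ → ℝ × ℝ} {a b : ℝ}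
    (hsub : Ioo a b ⊆ f '' C)
    (hinj : ∀ p ∈ C, a < f p → p.1 = γ (f p))
    (hγ : ContinuousOn γ (Ioo a b))
    (hcl : ∀ q ∈ C, q.1 ∈ closure (γ '' Ioo a b)) :
    IsPreconnected (LL C) := by
  set D : Set XX := f ⁻¹' (Ioo a b) ∩ C with hD
  have hval : Subtype.val '' D = γ '' Ioo a b := by
    ext z
    constructor
    · rintro ⟨p, ⟨hp1, hp2⟩, rfl⟩
      exact ⟨f p, hp1, (hinj p hp2 hp1.1).symm⟩
    · rintro ⟨x, hx, rfl⟩
      obtain ⟨p, hp, rfl⟩ := hsub hx
      exact ⟨p, ⟨hx, hp⟩, hinj p hp hx.1⟩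
  have hDpre : IsPreconnected D := by
    rw [← Topology.IsInducing.subtypeVal.isPreconnected_image, hval]
    exact isPreconnected_Ioo.image _ hγ
  have hDinj : ∀ p ∈ D, ∀ q ∈ D, f p = f q → p = q := by
    rintro p ⟨hp1, hp2⟩ q ⟨hq1, hq2⟩ h
    apply Subtype.ext
    rw [hinj p hp2 hp1.1, hinj q hq2 hq1.1, h]
  have hDsub : D ⊆ LL C := by
    intro p hp
    refine ⟨hp.2, f ⁻¹' (Ioo a b), isOpen_Ioo.preimage hf, hp.1, ?_⟩
    rw [← hD, hDpre.connectedComponentIn hp]
    intro hcon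
    have h1 : IsPreconnected (f '' (D \ {p})) := hcon.image _ hf.continuousOn
    have h2 := h1.ordConnected
    obtain ⟨x, hx1, hx2⟩ := exists_between hp.1.1
    obtain ⟨y, hy1, hy2⟩ := exists_between hp.1.2
    obtain ⟨px, hpx, hpx'⟩ := hsub ⟨hx1, hx2.trans hp.1.2⟩
    obtain ⟨py, hpy, hpy'⟩ := hsub ⟨hp.1.1.trans hy1, hy2⟩
    have m1 : x ∈ f '' (D \ {p}) := by
      refine ⟨px, ⟨⟨?_, hpx⟩, ?_⟩, hpx'⟩
      · show f px ∈ Ioo a b
        rw [hpx']; exact ⟨hx1, hx2.trans hp.1.2⟩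
      · intro h
        rw [mem_singleton_iff.1 h] at hpx'
        exact hx2.ne hpx'.symm
    have m2 : y ∈ f '' (D \ {p}) := by
      refine ⟨py, ⟨⟨?_, hpy⟩, ?_⟩, hpy'⟩
      · show f py ∈ Ioo a b
        rw [hpy']; exact ⟨hp.1.1.trans hy1, hy2⟩
      · intro h
        rw [mem_singleton_iff.1 h] at hpy'
        exact hy1.ne hpy'
    obtain ⟨q, ⟨hq1, hq2⟩, hq3⟩ := h2.out m1 m2 ⟨hx2.le, hy1.le⟩
    exact hq2 (hDinj q hq1 p hp hq3)
  refine hDpre.subset_closure hDsub ?_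
  intro q hq
  rw [closure_subtype, hval]
  exact hcl q hq.1

lemma LL_subsingleton {C : Set XX} (hC : C.Subsingleton) : IsPreconnected (LL C) :=
  Set.Subsingleton.isPreconnected (fun _ hp _ hq => hC hp.1 hq.1)

/-- first coordinate -/
def cx (p : XX) : ℝ := p.1.1
/-- second coordinate -/
def cy (p : XX) : ℝ := p.1.2

lemma cx_cont : Continuous cx := continuous_fst.comp continuous_subtype_val
lemma cy_cont : Continuous cy := continuous_snd.comp continuous_subtype_val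

lemma eq_gr {p : XX} (h : 0 < cx p) : p.1 = gr (cx p) := by
  have := p.2.2.2 h
  exact Prod.ext rfl this

theorem LL_main {C : Set XX} (hc : IsCompact C) (hconn : IsConnected C) :
    IsPreconnected (LL C) := by
  obtain ⟨pm, hpm, hmin⟩ := hc.exists_isMinOn hconn.nonempty cx_cont.continuousOn
  obtain ⟨pM, hpM, hmax⟩ := hc.exists_isMaxOn hconn.nonempty cx_cont.continuousOn
  have hmin' : ∀ q ∈ C, cx pm ≤ cx q := fun q hq => hmin hq
  have hmax' : ∀ q ∈ C, cx q ≤ cx pM := fun q hq => hmax hq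
  rcases (hmin' pM hpM).eq_or_lt with heq | hlt
  · -- constant first coordinate
    rcases p2 : (pM.2.1.1).eq_or_lt with h0 | h0
    · -- in the bar
      have hx0 : ∀ q ∈ C, cx q = 0 := by
        intro q hq
        have h1 := hmin' q hq
        have h2 := hmax' q hq
        have h3 : cx pM = 0 := h0.symm
        rw [heq, h3] at h1
        rw [h3] at h2
        exact le_antisymm h2 h1
      obtain ⟨qm, hqm, hmin2⟩ := hc.exists_isMinOn hconn.nonempty cy_cont.continuousOn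
      obtain ⟨qM, hqM, hmax2⟩ := hc.exists_isMaxOn hconn.nonempty cy_cont.continuousOn
      have hmin2' : ∀ q ∈ C, cy qm ≤ cy q := fun q hq => hmin2 hq
      have hmax2' : ∀ q ∈ C, cy q ≤ cy qM := fun q hq => hmax2 hq
      rcases (hmin2' qM hqM).eq_or_lt with heq2 | hlt2
      · apply LL_subsingleton
        intro p hp q hq
        apply Subtype.ext
        apply Prod.ext
        · exact (hx0 p hp).trans (hx0 q hq).symm
        · have h1 := hmin2' p hp
          have h2 := hmax2' p hp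
          have h3 := hmin2' q hq
          have h4 := hmax2' q hq
          show cy p = cy q
          linarith
      · refine LL_preconnected (f := cy) (γ := fun y => (0, y)) (a := cy qm) (b := cy qM)
          cy_cont ?_ ?_ ?_ ?_
        · intro y hy
          have h1 : IsPreconnected (cy '' C) := hconn.isPreconnected.image _ cy_cont.continuousOn
          exact h1.ordConnected.out ⟨qm, hqm, rfl⟩ ⟨qM, hqM, rfl⟩ ⟨hy.1.le, hy.2.le⟩
        · intro p hp _
          exact Prod.ext (hx0 p hp) rfl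
        · exact (Continuous.prodMk_right (0 : ℝ)).continuousOn
        · intro q hq
          have h1 : cy q ∈ closure (Ioo (cy qm) (cy qM)) := by
            rw [closure_Ioo hlt2.ne]
            exact ⟨hmin2' q hq, hmax2' q hq⟩
          have h2 : q.1 = (fun y : ℝ => ((0 : ℝ), y)) (cy q) := Prod.ext (hx0 q hq) rfl
          rw [h2]
          exact (Continuous.prodMk_right (0 : ℝ)).continuousWithinAt.mem_closure_image h1
    · -- a single point of the graph
      apply LL_subsingleton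
      have hall : ∀ q ∈ C, cx q = cx pM := by
        intro q hq
        have h1 := hmin' q hq
        have h2 := hmax' q hq
        rw [heq] at h1
        exact le_antisymm h2 h1
      intro p hp q hq
      apply Subtype.ext
      have hp0 : 0 < cx p := by rw [hall p hp]; exact h0
      have hq0 : 0 < cx q := by rw [hall q hq]; exact h0
      rw [eq_gr hp0, eq_gr hq0, hall p hp, hall q hq]
  · have hnn : 0 ≤ cx pm := pm.2.1.1
    refine LL_preconnected (f := cx) (γ := gr) (a := cx pm) (b := cx pM) cx_cont ?_ ?_ ?_ ?_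
    · intro y hy
      have h1 : IsPreconnected (cx '' C) := hconn.isPreconnected.image _ cx_cont.continuousOn
      exact h1.ordConnected.out ⟨pm, hpm, rfl⟩ ⟨pM, hpM, rfl⟩ ⟨hy.1.le, hy.2.le⟩
    · intro p _ hp
      exact eq_gr (hnn.trans_lt hp)
    · intro x hx
      exact (gr_continuousAt (hnn.trans_lt hx.1)).continuousWithinAt
    · intro q hq
      rcases (q.2.1.1).eq_or_lt with h0 | h0
      · have hm0 : cx pm = 0 := by
          have h1 := hmin' q hq
          have h2 : cx q = 0 := h0.symm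
          rw [h2] at h1
          exact le_antisymm h1 hnn
        have h3 : q.1 = ((0 : ℝ), cy q) := Prod.ext h0.symm rfl
        rw [h3, hm0]
        rw [hm0] at hlt
        exact bar_mem_closure q.2.2.1 hlt
      · rw [eq_gr h0]
        exact gr_mem_closure hlt h0 ⟨hmin' q hq, hmax' q hq⟩

lemma exists_unitInterval_gt {t₀ : unitInterval} (ht₀ : t₀ < 1) {δ : ℝ} (hδ : 0 < δ) :
    ∃ t₁, t₀ < t₁ ∧ dist t₀ t₁ < δ := by
  let s₀ := (t₀ : ℝ)
  let s₁ := min (s₀ + δ / 2) 1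
  have h_s₀_delta_pos : 0 ≤ s₀ + δ / 2 := add_nonneg t₀.2.1 (by positivity)
  have hs₁ : 0 ≤ s₁ := le_min h_s₀_delta_pos zero_le_one
  have hs₁' : s₁ ≤ 1 := min_le_right ..
  refine ⟨⟨s₁, hs₁, hs₁'⟩, lt_min ((lt_add_iff_pos_right _).mpr (half_pos hδ)) ht₀, ?_⟩
  have h_le : s₁ ≤ s₀ + δ / 2 := min_le_left _ _
  have h_ge : s₀ ≤ s₁ := le_min (by linarith) t₀.2.2
  rw [Subtype.dist_eq, dist_comm, dist_eq, abs_of_nonneg (by linarith)]
  linarith

/-- no path from `(0,0)` to `(1, sin 1)` -/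
theorem no_path (p : unitInterval → XX) (hp : Continuous p) (h0 : cx (p 0) = 0)
    (h1 : cx (p 1) = 1) : False := by
  have xcoord : Continuous fun t ↦ cx (p t) := cx_cont.comp hp
  let t₀ : unitInterval := sSup {t | cx (p t) = 0}
  have hcl : IsClosed {t : unitInterval | cx (p t) = 0} := isClosed_eq xcoord continuous_const
  have hne : ({t : unitInterval | cx (p t) = 0}).Nonempty := ⟨0, h0⟩
  have h_pt₀_x : cx (p t₀) = 0 := hcl.sSup_mem hne
  obtain ⟨δ, hδ, ht⟩ : ∃ δ, 0 < δ ∧ ∀ t, dist t t₀ < δ → dist (p t) (p t₀) < 1 :=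
    Metric.eventually_nhds_iff.mp <| Metric.tendsto_nhds.mp (hp.continuousAt (x := t₀)) _ one_pos
  obtain ⟨t₁, ht₁⟩ : ∃ t₁, t₀ < t₁ ∧ dist t₀ t₁ < δ := by
    refine exists_unitInterval_gt (lt_of_le_of_ne (unitInterval.le_one t₀) fun ht₀' ↦ ?_) hδ
    have x_eq_zero : cx (p 1) = 0 := by rwa [ht₀'] at h_pt₀_x
    linarith
  let a := cx (p t₁)
  have ha : 0 < a := by
    rcases ((p t₁).2.1.1).eq_or_lt with h | h
    · have : cx (p t₁) = 0 := h.symm
      exact ((show t₁ ≤ t₀ from le_sSup this).not_gt ht₁.1).elim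
    · exact h
  have hint : Icc 0 a ⊆ (fun t ↦ cx (p t)) '' Icc t₀ t₁ :=
    (isPreconnected_Icc.image _ <| xcoord.continuousOn).Icc_subset
      (show 0 ∈ (fun t ↦ cx (p t)) '' Icc t₀ t₁ from ⟨t₀, ⟨le_rfl, ht₁.1.le⟩, ‹_›⟩)
      (show a ∈ (fun t ↦ cx (p t)) '' Icc t₀ t₁ from ⟨t₁, ⟨ht₁.1.le, le_rfl⟩, rfl⟩)
  have exists_close {y : ℝ} (hy : y ∈ Icc (-1) 1) : ∃ t, dist t t₀ < δ ∧ cy (p t) = y := by
    obtain ⟨x, hx, hx'⟩ := exists_mem_Ioo_of_y hy ha
    obtain ⟨t, ht⟩ : ∃ t ∈ Icc t₀ t₁, cx (p t) = x := hint ⟨hx.1.le, hx.2.le⟩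
    have hpp : cy (p t) = sin (cx (p t))⁻¹ := (p t).2.2.2 (by
      show 0 < cx (p t)
      rw [ht.2]; exact hx.1)
    refine ⟨t, ?_, by rw [← hx', hpp, ht.2]⟩
    calc dist t t₀ ≤ dist t₁ t₀ := dist_right_le_of_mem_uIcc (Icc_subset_uIcc' ht.1)
    _ = dist t₀ t₁ := by rw [dist_comm]
    _ < δ := ht₁.2
  obtain ⟨x₁, hx₁, h_pathx₁⟩ : ∃ x₁, dist x₁ t₀ < δ ∧ cy (p x₁) = 1 := exists_close (by simp)
  obtain ⟨x₂, hx₂, h_pathx₂⟩ : ∃ x₂, dist x₂ t₀ < δ ∧ cy (p x₂) = -1 := exists_close (by simp)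
  have h2 : dist (p x₁) (p x₂) < 2 := by
    refine (dist_triangle_right _ _ (p t₀)).trans_lt ?_
    exact (add_lt_add (ht _ hx₁) (ht _ hx₂)).trans_eq (by norm_num)
  have h3 : dist (cy (p x₁)) (cy (p x₂)) ≤ dist (p x₁) (p x₂) := by
    rw [Subtype.dist_eq, Prod.dist_eq]
    exact le_max_right _ _
  rw [h_pathx₁, h_pathx₂, Real.dist_eq] at h3
  norm_num at h3
  linarith

end Run7.h351.Sine
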